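import Pool.Agent.helper96.DP.Defs

/-!
# Basic lemmas of project dp: distance, adjacency, connections, paths, local and monotone events
-/

namespace DP

open MeasureTheory

/-! ## Distance and adjacency -/

theorem sd_comm (u v : V) : sd u v = sd v u := by
  unfold sd
  rw [← Int.natAbs_neg, ← Int.natAbs_neg (u.2 - v.2)]
  simp

@[simp] theorem sd_self (u : V) : sd u u = 0 := by simp [sd]

theorem sd_triangle (u v w : V) : sd u w ≤ sd u v + sd v w := by
  unfold sd
  omega

theorem sd_eq_zero {u v : V} : sd u v = 0 ↔ u = v := by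
  constructor
  · intro h
    unfold sd at h
    ext <;> omega
  · rintro rfl
    simp

theorem sd_le_iff {u v : V} {n : ℕ} :
    sd u v ≤ n ↔ (u.1 - n ≤ v.1 ∧ v.1 ≤ u.1 + n) ∧ u.2 - n ≤ v.2 ∧ v.2 ≤ u.2 + n := by
  unfold sd
  omega

theorem Adj.sd {u v : V} (h : Adj u v) : DP.sd u v = 1 := h.1

theorem Adj.symm {u v : V} (h : Adj u v) : Adj v u := by
  refine ⟨by rw [sd_comm]; exact h.1, ?_⟩
  have h1 := h.1
  rcases h.2 with h2 | h2 | h2
  · exact Or.inl h2.symm
  · exact Or.inr (Or.inl h2.symm)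
  · by_cases h3 : u.1 = v.1
    · exact Or.inl h3.symm
    by_cases h4 : u.2 = v.2
    · exact Or.inr (Or.inl h4.symm)
    right; right
    rw [Int.even_iff] at h2 ⊢
    unfold DP.sd at h1
    omega

theorem Adj.ne {u v : V} (h : Adj u v) : u ≠ v := by
  rintro rfl
  have := h.1
  simp at this

theorem Adj.sd_le {u v : V} (h : Adj u v) (x : V) : DP.sd x u ≤ DP.sd x v + 1 := by
  have h1 := sd_triangle x v u
  have h2 : DP.sd v u = 1 := h.symm.1
  omega

theorem adj_right (v : V) : Adj v (v.1 + 1, v.2) := ⟨by simp [sd], Or.inr (Or.inl rfl)⟩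
theorem adj_left (v : V) : Adj v (v.1 - 1, v.2) := ⟨by simp [sd], Or.inr (Or.inl rfl)⟩
theorem adj_up (v : V) : Adj v (v.1, v.2 + 1) := ⟨by simp [sd], Or.inl rfl⟩
theorem adj_down (v : V) : Adj v (v.1, v.2 - 1) := ⟨by simp [sd], Or.inl rfl⟩

/-! ## Connections -/

theorem Con.mem_left {W : Set V} {u v : V} (h : Con W u v) : u ∈ W := h.1

theorem Con.mem_right {W : Set V} {u v : V} (h : Con W u v) : v ∈ W := by
  rcases Relation.ReflTransGen.cases_tail h.2 with h1 | ⟨w, -, h1⟩
  · exact h1 ▸ h.1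
  · exact h1.2

theorem Con.refl {W : Set V} {u : V} (h : u ∈ W) : Con W u u := ⟨h, .refl⟩

theorem Con.trans {W : Set V} {u v w : V} (h : Con W u v) (h' : Con W v w) : Con W u w :=
  ⟨h.1, h.2.trans h'.2⟩

theorem Con.tail {W : Set V} {u v w : V} (h : Con W u v) (h' : Adj v w) (hw : w ∈ W) :
    Con W u w := ⟨h.1, h.2.tail ⟨h', hw⟩⟩

theorem Con.single {W : Set V} {u v : V} (hu : u ∈ W) (h : Adj u v) (hv : v ∈ W) : Con W u v :=
  (Con.refl hu).tail h hv

theorem Con.symm {W : Set V} {u v : V} (h : Con W u v) : Con W v u := by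
  obtain ⟨hu, h⟩ := h
  induction h with
  | refl => exact Con.refl hu
  | tail h1 h2 ih => exact (Con.single h2.2 h2.1.symm (Con.mem_right ⟨hu, h1⟩)).trans ih

theorem Con.mono {W W' : Set V} (hW : W ⊆ W') {u v : V} (h : Con W u v) : Con W' u v := by
  obtain ⟨hu, h⟩ := h
  induction h with
  | refl => exact Con.refl (hW hu)
  | tail _ h2 ih => exact ih.tail h2.1 (hW h2.2)

/-- Induction along a connection: if `P` holds at `u` and is transported along edges of `W`. -/
theorem Con.induct {W : Set V} {u v : V} (h : Con W u v) (P : V → Prop) (h0 : P u)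
    (h1 : ∀ a b, a ∈ W → b ∈ W → Adj a b → Con W u a → P a → P b) : P v := by
  obtain ⟨hu, h⟩ := h
  induction h with
  | refl => exact h0
  | tail h2 h3 ih => exact h1 _ _ (Con.mem_right ⟨hu, h2⟩) h3.2 h3.1 ⟨hu, h2⟩ ih

theorem Conn.colour_left {c : V → Bool} {k : Bool} {R : Set V} {u v : V} (h : Conn c k R u v) :
    c u = k := h.1.2

theorem Conn.colour_right {c : V → Bool} {k : Bool} {R : Set V} {u v : V} (h : Conn c k R u v) :
    c v = k := (Con.mem_right h).2

theorem Conn.mem_left {c : V → Bool} {k : Bool} {R : Set V} {u v : V} (h : Conn c k R u v) :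
    u ∈ R := h.1.1

theorem Conn.mem_right {c : V → Bool} {k : Bool} {R : Set V} {u v : V} (h : Conn c k R u v) :
    v ∈ R := (Con.mem_right h).1

theorem Conn.mono {c : V → Bool} {k : Bool} {R R' : Set V} (hR : R ⊆ R') {u v : V}
    (h : Conn c k R u v) : Conn c k R' u v := by
  refine Con.mono ?_ h
  intro w hw
  exact ⟨hR hw.1, hw.2⟩

theorem Conn.symm {c : V → Bool} {k : Bool} {R : Set V} {u v : V} (h : Conn c k R u v) :
    Conn c k R v u := Con.symm h

theorem Conn.trans {c : V → Bool} {k : Bool} {R : Set V} {u v w : V} (h : Conn c k R u v)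
    (h' : Conn c k R v w) : Conn c k R u w := Con.trans h h'

/-- Connections of colour `k` are preserved if more sites get colour `k`. -/
theorem Conn.colour_mono {c c' : V → Bool} {k : Bool} {R : Set V}
    (hc : ∀ v ∈ R, c v = k → c' v = k) {u v : V} (h : Conn c k R u v) : Conn c' k R u v := by
  refine Con.mono ?_ h
  intro w hw
  exact ⟨hw.1, hc _ hw.1 hw.2⟩

theorem Conn.congr {c c' : V → Bool} {k : Bool} {R : Set V} (hc : ∀ v ∈ R, c v = c' v) {u v : V} :
    Conn c k R u v ↔ Conn c' k R u v :=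
  ⟨Conn.colour_mono fun v hv h => (hc v hv) ▸ h, Conn.colour_mono fun v hv h => (hc v hv).symm ▸ h⟩

/-- First hitting of distance `m` from below. -/
theorem Con.exit {W : Set V} {x u v : V} {m : ℕ} (h : Con W u v) (hu : sd x u ≤ m)
    (hv : m ≤ sd x v) : ∃ w, sd x w = m ∧ Con (W ∩ box x m) u w ∧ Con W w v := by
  have key : Con (W ∩ box x m) u v ∨
      ∃ w, sd x w = m ∧ Con (W ∩ box x m) u w ∧ Con W w v := by
    refine Con.induct h (fun a => Con (W ∩ box x m) u a ∨
      ∃ w, sd x w = m ∧ Con (W ∩ box x m) u w ∧ Con W w a) (Or.inl (Con.refl ⟨h.1, hu⟩)) ?_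
    rintro a b ha hb hab - (h1 | ⟨w, h1, h2, h3⟩)
    · by_cases hbm : sd x b ≤ m
      · exact Or.inl (h1.tail hab ⟨hb, hbm⟩)
      · right
        have h2 : sd x a ≤ m := (Con.mem_right h1).2
        have h3 := hab.symm.sd_le x
        exact ⟨a, by omega, h1, Con.single ha hab hb⟩
    · exact Or.inr ⟨w, h1, h2, h3.tail hab hb⟩
  rcases key with h1 | h1
  · exact ⟨v, le_antisymm (Con.mem_right h1).2 hv, h1, Con.refl (Con.mem_right h)⟩
  · exact h1

/-- First hitting of distance `m` from above. -/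
theorem Con.enter {W : Set V} {x u v : V} {m : ℕ} (h : Con W u v) (hu : m ≤ sd x u)
    (hv : sd x v ≤ m) : ∃ w, sd x w = m ∧ Con (W ∩ {z | m ≤ sd x z}) u w ∧ Con W w v := by
  have key : Con (W ∩ {z | m ≤ sd x z}) u v ∨
      ∃ w, sd x w = m ∧ Con (W ∩ {z | m ≤ sd x z}) u w ∧ Con W w v := by
    refine Con.induct h (fun a => Con (W ∩ {z | m ≤ sd x z}) u a ∨
      ∃ w, sd x w = m ∧ Con (W ∩ {z | m ≤ sd x z}) u w ∧ Con W w a)
      (Or.inl (Con.refl ⟨h.1, hu⟩)) ?_
    rintro a b ha hb hab - (h1 | ⟨w, h1, h2, h3⟩)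
    · by_cases hbm : m ≤ sd x b
      · exact Or.inl (h1.tail hab ⟨hb, hbm⟩)
      · right
        have h2 : m ≤ sd x a := (Con.mem_right h1).2
        have h3 := hab.sd_le x
        exact ⟨a, by omega, h1, Con.single ha hab hb⟩
    · exact Or.inr ⟨w, h1, h2, h3.tail hab hb⟩
  rcases key with h1 | h1
  · exact ⟨v, le_antisymm hv (Con.mem_right h1).2, h1, Con.refl (Con.mem_right h)⟩
  · exact h1

/-- A connection across an annulus contains a crossing of the annulus. -/
theorem Con.cross {W : Set V} {x u v : V} {m n : ℕ} (h : Con W u v) (hu : sd x u ≤ m)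
    (hmn : m ≤ n) (hv : n ≤ sd x v) :
    ∃ p q, sd x p = m ∧ sd x q = n ∧ Con (W ∩ ann x m n) p q ∧ Con W u p ∧ Con W q v := by
  obtain ⟨q, hq, h1, h2⟩ := h.exit (hu.trans hmn) hv
  obtain ⟨p, hp, h3, h4⟩ := h1.symm.enter (m := m) (by omega) hu
  refine ⟨p, q, hp, hq, ?_, (h4.symm).mono Set.inter_subset_left, h2⟩
  refine h3.symm.mono ?_
  rintro z ⟨⟨hz1, hz2⟩, hz3⟩
  exact ⟨hz1, hz3, hz2⟩

/-! ## Paths as lists -/

theorem IsPath.ne_nil {W : Set V} {l : List V} {u v : V} (h : IsPath W l u v) : l ≠ [] := by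
  rintro rfl
  simp [IsPath] at h

theorem IsPath.mem_left {W : Set V} {l : List V} {u v : V} (h : IsPath W l u v) : u ∈ l :=
  List.mem_of_head? h.1

theorem IsPath.mem_right {W : Set V} {l : List V} {u v : V} (h : IsPath W l u v) : v ∈ l :=
  List.mem_of_getLast? h.2.1

theorem IsPath.subset {W : Set V} {l : List V} {u v : V} (h : IsPath W l u v) :
    ∀ w ∈ l, w ∈ W := h.2.2.2

theorem IsPath.mono {W W' : Set V} {l : List V} {u v : V} (h : IsPath W l u v) (hW : W ⊆ W') :
    IsPath W' l u v := ⟨h.1, h.2.1, h.2.2.1, fun w hw => hW (h.2.2.2 w hw)⟩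

theorem IsPath.self {W : Set V} {l : List V} {u v : V} (h : IsPath W l u v) :
    IsPath {w | w ∈ l} l u v := ⟨h.1, h.2.1, h.2.2.1, fun _ hw => hw⟩

theorem IsPath.singleton {W : Set V} {u : V} (h : u ∈ W) : IsPath W [u] u u := by
  simp [IsPath, h]

theorem IsPath.cons {W : Set V} {l : List V} {u u' v : V} (h : IsPath W l u' v) (ha : Adj u u')
    (hu : u ∈ W) : IsPath W (u :: l) u v := by
  obtain ⟨h1, h2, h3, h4⟩ := h
  cases l with
  | nil => simp at h1
  | cons a l =>
    simp only [List.head?_cons, Option.some.injEq] at h1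
    subst h1
    refine ⟨rfl, by rw [List.getLast?_cons_cons]; exact h2, ?_, ?_⟩
    · rw [List.isChain_cons_cons]
      exact ⟨ha, h3⟩
    · intro w hw
      rcases List.mem_cons.1 hw with rfl | hw
      · exact hu
      · exact h4 w hw

theorem IsPath.reverse {W : Set V} {l : List V} {u v : V} (h : IsPath W l u v) :
    IsPath W l.reverse v u := by
  obtain ⟨h1, h2, h3, h4⟩ := h
  refine ⟨by rw [List.head?_reverse]; exact h2, by rw [List.getLast?_reverse]; exact h1, ?_,
    fun w hw => h4 w (List.mem_reverse.1 hw)⟩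
  rw [List.isChain_reverse]
  exact h3.imp fun a b hab => hab.symm

theorem IsPath.con {W : Set V} {l : List V} {u v : V} (h : IsPath W l u v) : Con W u v := by
  induction l generalizing u with
  | nil => exact absurd rfl h.ne_nil
  | cons a l ih =>
    obtain ⟨h1, h2, h3, h4⟩ := h
    simp only [List.head?_cons, Option.some.injEq] at h1
    subst h1
    cases l with
    | nil =>
      simp only [List.getLast?_singleton, Option.some.injEq] at h2
      subst h2
      exact Con.refl (h4 a (by simp))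
    | cons b l =>
      rw [List.getLast?_cons_cons] at h2
      rw [List.isChain_cons_cons] at h3
      have hb : Con W b v := ih ⟨rfl, h2, h3.2, fun w hw => h4 w (List.mem_cons_of_mem _ hw)⟩
      exact (Con.single (h4 a (by simp)) h3.1 hb.1).trans hb

/-- From a connection a path without repetitions. -/
theorem Con.exists_path {W : Set V} {u v : V} (h : Con W u v) :
    ∃ l, IsPath W l u v ∧ l.Nodup := by
  classical
  have h' := h.symm
  clear h
  refine Con.induct h' (fun a => ∃ l, IsPath W l a v ∧ l.Nodup)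
    ⟨[v], IsPath.singleton h'.1, by simp⟩ ?_
  rintro a b ha hb hab - ⟨l, hl, hn⟩
  by_cases hbl : b ∈ l
  · obtain ⟨s, t, rfl⟩ := List.append_of_mem hbl
    refine ⟨b :: t, ⟨rfl, ?_, ?_, ?_⟩, (List.nodup_append.1 hn).2.1⟩
    · have := hl.2.1
      rwa [List.getLast?_append_of_ne_nil _ (by simp)] at this
    · exact (List.isChain_append.1 hl.2.2.1).2.1
    · intro w hw
      exact hl.2.2.2 w (List.mem_append_right _ hw)
  · exact ⟨b :: l, hl.cons hab.symm hb, List.nodup_cons.2 ⟨hbl, hn⟩⟩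

theorem con_iff_path {W : Set V} {u v : V} : Con W u v ↔ ∃ l, IsPath W l u v :=
  ⟨fun h => let ⟨l, hl, _⟩ := h.exists_path; ⟨l, hl⟩, fun ⟨_, hl⟩ => hl.con⟩

/-! ## Local and monotone events -/

theorem Dep.mono {F : Set (V → Bool)} {A A' : Set V} (h : Dep F A) (hA : A ⊆ A') : Dep F A' :=
  fun b b' hb => h b b' fun v hv => hb v (hA hv)

theorem Loc.mono {F : Set (V → Bool)} {A A' : Set V} (h : Loc F A) (hA : A ⊆ A') : Loc F A' :=
  let ⟨Λ, h1, h2⟩ := h; ⟨Λ, h1.trans hA, h2⟩

theorem Loc.of_finite {F : Set (V → Bool)} {A : Set V} (hA : A.Finite) (h : Dep F A) : Loc F A :=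
  ⟨hA.toFinset, by simp, by simpa using h⟩

theorem Loc.inter {F G : Set (V → Bool)} {A B : Set V} (hF : Loc F A) (hG : Loc G B) :
    Loc (F ∩ G) (A ∪ B) := by
  classical
  obtain ⟨Λ, h1, h2⟩ := hF
  obtain ⟨M, h3, h4⟩ := hG
  refine ⟨Λ ∪ M, by push_cast; exact Set.union_subset_union h1 h3, fun b b' hb => ?_⟩
  simp only [Finset.coe_union, Set.mem_union, Finset.mem_coe] at hb
  exact and_congr (h2 b b' fun v hv => hb v (Or.inl hv)) (h4 b b' fun v hv => hb v (Or.inr hv))

theorem Loc.union {F G : Set (V → Bool)} {A B : Set V} (hF : Loc F A) (hG : Loc G B) :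
    Loc (F ∪ G) (A ∪ B) := by
  classical
  obtain ⟨Λ, h1, h2⟩ := hF
  obtain ⟨M, h3, h4⟩ := hG
  refine ⟨Λ ∪ M, by push_cast; exact Set.union_subset_union h1 h3, fun b b' hb => ?_⟩
  simp only [Finset.coe_union, Set.mem_union, Finset.mem_coe] at hb
  exact or_congr (h2 b b' fun v hv => hb v (Or.inl hv)) (h4 b b' fun v hv => hb v (Or.inr hv))

theorem Loc.compl {F : Set (V → Bool)} {A : Set V} (hF : Loc F A) : Loc Fᶜ A := by
  obtain ⟨Λ, h1, h2⟩ := hF
  exact ⟨Λ, h1, fun b b' hb => not_congr (h2 b b' hb)⟩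

theorem Loc.univ (A : Set V) : Loc (Set.univ : Set (V → Bool)) A :=
  ⟨∅, by simp, fun _ _ _ => Iff.rfl⟩

theorem col_congr {b b' : V → Bool} {v : V} (h : b v = b' v) : col b v = col b' v := by
  unfold col
  rw [h]

/-- An event which depends only on the colours in a finite set is local. -/
theorem Loc.ev {p : (V → Bool) → Prop} {A : Set V} (hA : A.Finite)
    (h : ∀ c c' : V → Bool, (∀ v ∈ A, c v = c' v) → (p c ↔ p c')) : Loc (Ev p) A :=
  Loc.of_finite hA fun b b' hb => h _ _ fun v hv => col_congr (hb v hv)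

theorem Mon.inter {k : Bool} {F G : Set (V → Bool)} (hF : Mon k F) (hG : Mon k G) :
    Mon k (F ∩ G) := fun b b' hb h => ⟨hF b b' hb h.1, hG b b' hb h.2⟩

theorem Mon.union {k : Bool} {F G : Set (V → Bool)} (hF : Mon k F) (hG : Mon k G) :
    Mon k (F ∪ G) := fun b b' hb h => h.imp (hF b b' hb) (hG b b' hb)

theorem Mon.univ (k : Bool) : Mon k (Set.univ : Set (V → Bool)) := fun _ _ _ _ => trivial

theorem Mon.compl {k : Bool} {F : Set (V → Bool)} (hF : Mon k F) : Mon (!k) Fᶜ := by
  intro b b' hb h h'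
  refine h (hF b' b (fun v hv => ?_) h')
  by_contra hne
  have := hb v (by cases k <;> simp_all)
  cases k <;> simp_all

theorem col_mono {k : Bool} {b b' : V → Bool} {v : V} (h : b v = k → b' v = k)
    (hc : col b v = k) : col b' v = k := by
  unfold col at hc ⊢
  split_ifs at hc ⊢ with h1 h2
  · exact hc
  · exact hc
  · exact h hc

theorem Mon.ev {k : Bool} {p : (V → Bool) → Prop}
    (h : ∀ c c' : V → Bool, (∀ v, c v = k → c' v = k) → p c → p c') : Mon k (Ev p) :=
  fun _ _ hb hp => h _ _ (fun v => col_mono (hb v)) hp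

theorem Mon.conn (k : Bool) (R : Set V) (u v : V) : Mon k (Ev fun c => Conn c k R u v) :=
  Mon.ev fun _ _ h => Conn.colour_mono fun v _ => h v

theorem box_finite (x : V) (n : ℕ) : (box x n).Finite := by
  refine Set.Finite.subset (((Finset.Icc (x.1 - n) (x.1 + n)) ×ˢ
    (Finset.Icc (x.2 - n) (x.2 + n)) : Finset V).finite_toSet) ?_
  intro v hv
  have := sd_le_iff.1 (show sd x v ≤ n from hv)
  simp only [Finset.coe_product, Finset.coe_Icc, Set.mem_prod, Set.mem_Icc]
  omega

theorem ann_subset_box (x : V) (m n : ℕ) : ann x m n ⊆ box x n := fun _ h => h.2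

theorem ann_finite (x : V) (m n : ℕ) : (ann x m n).Finite :=
  (box_finite x n).subset (ann_subset_box x m n)

theorem Loc.conn {k : Bool} {R : Set V} (hR : R.Finite) (u v : V) :
    Loc (Ev fun c => Conn c k R u v) R :=
  Loc.ev hR fun _ _ h => Conn.congr h

end DP
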