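import Pool.Agent.helper96.DP.SpecE
import Pool.Agent.helper3.DP.SpecG1

/-!
# Part F: pivotality, stability, noise sensitivity, second moment

Radii are powers of two; `k` is a fixed large number (the inner radius is `2 ^ k`); the centre is
`0` or a point with even coordinates.
-/

namespace DP

open MeasureTheory

/-- Four-arm probability. -/
noncomputable def al (k i : ℕ) : ℝ := Pr (Ev fun c => four c 0 (2 ^ k) (2 ^ i))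

/-- Two-arm probability. -/
noncomputable def be (k i : ℕ) : ℝ := Pr (Ev fun c => two c 0 (2 ^ k) (2 ^ i))

/-- Probability of `j` arms in both configurations. -/
noncomputable def qa (ρ : V → ℝ) (j : ℕ) (x : V) (m n : ℕ) : ℝ :=
  Q ρ (Ev fun c => ar j c x m n) (Ev fun c => ar j c x m n)

/-! ## Pivotality -/

/-- Changing the coins in `B` changes a connection in `W` between far sites: two crossing clusters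
around `B`. -/
def PVC_stmt : Prop :=
  ∀ (b b' b'' : V → Bool) (B W : Set V) (k : Bool) (y : V) (r R : ℕ) (u v : V), B ⊆ box y r →
    r + 1 ≤ R → box y R ⊆ W → R ≤ sd y u → R ≤ sd y v →
    (∀ w, w ∉ B → b' w = b w ∧ b'' w = b w) → Conn (col b') k W u v → ¬ Conn (col b'') k W u v →
      twoCl (col b) k y (r + 1) R

/-- Colour symmetry of the four arm event. -/
def TC_stmt : Prop :=
  ∀ (c : V → Bool) (x : V) (m n : ℕ), Even (x.1 + x.2) → 1 ≤ m → m < n →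
    (twoCl c false x m n ↔ twoCl c true x m n)

/-- A pivotal set of an arm event gives four arms around it. -/
def PVI_stmt : Prop :=
  ∀ (j : ℕ) (b : V → Bool) (B : Set V) (x y : V) (m n₁ n₂ n r R : ℕ), j = 2 ∨ j = 4 →
    Even (y.1 + y.2) → B ⊆ box y r → r + 1 < R → m ≤ n₁ → n₁ ≤ n →
    (∀ w, sd y w ≤ R → n₁ < sd x w ∧ sd x w < n₂ ∧ sd x w < n) →
    b ∈ Piv B (Ev fun c => ar j c x m n) →
      ar j (col b) x m n₁ ∧ four (col b) y (r + 1) R ∧ (n₂ ≤ n → ar j (col b) x n₂ n)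

/-! ## Convenient forms of quasi-multiplicativity -/

/-- Translation invariance. -/
def TRQ_stmt : Prop :=
  ∀ (t : ℝ) (j : ℕ) (x : V) (m n : ℕ), Even x.1 → Even x.2 →
    qa (fun _ => t) j x m n = qa (fun _ => t) j 0 m n ∧
      Pr (Ev fun c => ar j c x m n) = Pr (Ev fun c => ar j c 0 m n)

/-- `Pr` is the case without noise. -/
def QZ_stmt : Prop :=
  ∀ (j : ℕ) (x : V) (m n : ℕ), Pr (Ev fun c => ar j c x m n) = qa (fun _ => 0) j x m n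

/-- Iterated extension. -/
def EXR_stmt : Prop :=
  ∃ C : ℝ, 1 ≤ C ∧ ∃ i₁ : ℕ, ∀ (j : ℕ) (ρ : V → ℝ) (x : V) (a b r : ℕ), j = 2 ∨ j = 4 →
    Profile ρ → Even (x.1 + x.2) → i₁ ≤ a → a < b →
      qa ρ j x (2 ^ a) (2 ^ b) ≤ C ^ r * qa ρ j x (2 ^ a) (2 ^ (b + r)) ∧
      qa ρ j x (2 ^ (a + r)) (2 ^ (b + r)) ≤ C ^ r * qa ρ j x (2 ^ a) (2 ^ (b + r)) ∧
      0 < qa ρ j x (2 ^ a) (2 ^ b)

/-- Quasi-multiplicativity with a gap, and the converse inequality. -/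
def QMX_stmt : Prop :=
  ∃ C : ℝ, 1 ≤ C ∧ ∃ i₁ : ℕ, ∀ (j : ℕ) (ρ : V → ℝ) (x : V) (a b r d : ℕ), j = 2 ∨ j = 4 →
    Profile ρ → Even (x.1 + x.2) → i₁ ≤ a → a < b → b + r ≤ d →
      qa ρ j x (2 ^ a) (2 ^ b) * qa ρ j x (2 ^ (b + r)) (2 ^ d) ≤
        C ^ (r + 1) * qa ρ j x (2 ^ a) (2 ^ d) ∧
      (b < d → qa ρ j x (2 ^ a) (2 ^ d) ≤
        C * (qa ρ j x (2 ^ a) (2 ^ b) * qa ρ j x (2 ^ b) (2 ^ d)))

/-! ## Growth of `4 ^ i * al k i` (from `F3`, `QM`) -/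

def GRO_stmt : Prop :=
  ∃ k₀ : ℕ, ∀ k, k₀ ≤ k → ∃ c a : ℝ, 0 < c ∧ 0 < a ∧ ∀ i i' : ℕ, k < i → i ≤ i' →
    c * (2 : ℝ) ^ (a * ((i' : ℝ) - i)) * (4 ^ i * al k i) ≤ 4 ^ i' * al k i'

def SUM_stmt : Prop :=
  ∃ k₀ : ℕ, ∀ k, k₀ ≤ k → ∃ C : ℝ, 0 < C ∧ ∀ i : ℕ, k < i →
    ∑ l ∈ Finset.Ioc k i, (4 : ℝ) ^ l * al k l ≤ C * (4 ^ i * al k i) ∧
      1 ≤ C * ((4 : ℝ) ^ i * al k i)

/-! ## Stability -/

/-- Pivotal sites of the four arm event: one site. -/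
def PSV_stmt : Prop :=
  ∃ k₀ : ℕ, ∀ k, k₀ ≤ k → ∃ C : ℝ, 0 < C ∧ ∀ (i : ℕ) (v : V), k + 6 ≤ i → 2 ^ k ≤ sd 0 v →
    sd 0 v ≤ 2 ^ (i - 2) →
      (sd 0 v < 2 ^ (k + 4) → Pr (Piv {v} (Ev fun c => four c 0 (2 ^ k) (2 ^ i))) ≤ C * al k i) ∧
      ∀ l : ℕ, k + 4 ≤ l → 2 ^ l ≤ sd 0 v → sd 0 v < 2 ^ (l + 1) →
        Pr (Piv {v} (Ev fun c => four c 0 (2 ^ k) (2 ^ i))) ≤ C * (al k i * al k l)

/-- The annulus around `0` as a finset. -/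
noncomputable def annN (m n : ℕ) : Finset V :=
  ((Finset.Icc (-(n : ℤ)) n) ×ˢ (Finset.Icc (-(n : ℤ)) n)).filter fun v => m ≤ sd 0 v

def PSU_stmt : Prop :=
  ∃ k₀ : ℕ, ∀ k, k₀ ≤ k → ∃ C : ℝ, 0 < C ∧ ∀ i : ℕ, k + 6 ≤ i →
    ∑ v ∈ annN (2 ^ k) (2 ^ (i - 2)), Pr (Piv {v} (Ev fun c => four c 0 (2 ^ k) (2 ^ i))) ≤
      C * 4 ^ i * al k i ^ 2

/-- Small noise does not destroy four arms. -/
def ST_stmt : Prop :=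
  ∃ k₀ : ℕ, ∀ k, k₀ ≤ k → ∃ c c₁ : ℝ, 0 < c ∧ 0 < c₁ ∧ ∀ (i : ℕ) (s : ℝ), k + 6 ≤ i → 0 ≤ s →
    s ≤ 1 → s * (4 ^ i * al k i) ≤ c₁ → c * al k i ≤ qa (fun _ => s) 4 0 (2 ^ k) (2 ^ i)

/-! ## The frame: lower bound for pivotality in the square -/

/-- The colouring of the inside of `bd x m` which makes `x + (1, 0)` pivotal: the column through
this site and everything above and below a horizontal band is white, the rest is black. -/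
def Inn (b : V → Bool) (x : V) (m : ℕ) : Prop :=
  ∀ w : V, sd x w < m → w ≠ (x.1 + 1, x.2) →
    b w = !decide (w.1 = x.1 + 1 ∨ m / 32 < (w.2 - x.2).natAbs)

/-- Deterministic inclusion. `N = 2 ^ j`; loops of size `2 ^ (j - 5)` around the standard points of
`bd x (2 N)` and chains of cells of size `2 ^ (j - 9)` to the sides of the square. -/
def FRI_stmt : Prop :=
  ∀ (b : V → Bool) (x : V) (m j : ℕ) (gs : ℕ → List V), Even x.1 → Even x.2 → Even m → 64 ≤ m →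
    2 * m ≤ 2 ^ j → 10 ≤ j → sd 0 x ≤ 2 ^ j → Std (col b) 4 true x (2 ^ (j + 1)) (Dmark 4 x m) →
    Inn b x m →
    (∀ l < 4, (∃ S, Loop (col b) (kol l) (zpt x (2 ^ (j + 1)) l) (2 ^ (j - 5)) S) ∧
      gs l = (List.range (3 * 2 ^ 8 + 1)).map (fun t => zpt x (2 ^ (j + 1) + 2 * t * 2 ^ (j - 9)) l) ∧
      Full (col b) (kol l) (2 ^ (j - 9)) (gs l)) →
        b ∈ Piv {(x.1 + 1, x.2)} (fq (2 ^ j))

def FRP_stmt : Prop :=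
  ∃ k₀ : ℕ, ∀ k, k₀ ≤ k → ∃ c : ℝ, 0 < c ∧ ∃ j₀ : ℕ, ∀ (j : ℕ) (ρ : V → ℝ) (x : V), j₀ ≤ j →
    Profile ρ → Even x.1 → Even x.2 → sd 0 x ≤ 2 ^ j →
      c * qa ρ 4 x (2 ^ k) (2 ^ j) ≤
        Q ρ (Piv {(x.1 + 1, x.2)} (fq (2 ^ j))) (Piv {(x.1 + 1, x.2)} (fq (2 ^ j)))

/-! ## Noise sensitivity -/

/-- The sum over disjoint windows of noise. -/
def WIN_stmt : Prop :=
  ∃ k₀ : ℕ, ∀ k, k₀ ≤ k → ∃ (c₁ C : ℝ) (i₀ J₀ : ℕ), 0 < c₁ ∧ 1 ≤ C ∧ 1 ≤ J₀ ∧ k < i₀ ∧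
    ∀ (t : ℝ) (p₀ J : ℕ), 0 < t → t ≤ 1 → i₀ ≤ p₀ → c₁ ≤ t * (4 ^ p₀ * al k p₀) →
      ∑ n ∈ (Finset.range J).filter (fun n => p₀ + J₀ * n < J),
        (4 : ℝ) ^ (J - (p₀ + J₀ * n)) * qa (fun _ => t) 4 0 (2 ^ (p₀ + J₀ * n)) (2 ^ J) ≤ C

/-- An abstract submultiplicative function with bounded sums decays exponentially. -/
def ABS_stmt : Prop :=
  ∀ (C C' : ℝ) (J₀ : ℕ), 1 ≤ C → 1 ≤ C' → 1 ≤ J₀ → ∃ C'' c₂ : ℝ, 0 < C'' ∧ 0 < c₂ ∧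
    ∀ (a : ℕ → ℕ → ℝ) (p₀ : ℕ), (∀ p q, 0 ≤ a p q) →
      (∀ p r q, p₀ ≤ p → p < r → r < q → a p q ≤ C' * (a p r * a r q)) →
      (∀ p' p q, p₀ ≤ p' → p' ≤ p → p ≤ p' + J₀ → p < q → a p q ≤ C' * a p' q) →
      (∀ q, ∑ n ∈ (Finset.range q).filter (fun n => p₀ + J₀ * n < q), a (p₀ + J₀ * n) q ≤ C) →
        ∀ p q, p₀ ≤ p → p < q → a p q ≤ C'' * (2 : ℝ) ^ (-(c₂ * ((q : ℝ) - p)))

/-- Decay of the four arm probability under noise, beyond the scale `2 ^ p₀` of the noise `t`. -/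
def DEC_stmt : Prop :=
  ∃ k₀ : ℕ, ∀ k, k₀ ≤ k → ∃ (c₁ c₂ C : ℝ) (i₀ : ℕ), 0 < c₁ ∧ 0 < c₂ ∧ 0 < C ∧ k < i₀ ∧
    ∀ (t : ℝ) (p₀ p q : ℕ), 0 < t → t ≤ 1 → i₀ ≤ p₀ → c₁ ≤ t * (4 ^ p₀ * al k p₀) → p₀ ≤ p →
      p < q → qa (fun _ => t) 4 0 (2 ^ p) (2 ^ q) ≤ C * (2 : ℝ) ^ (-((2 + c₂) * ((q : ℝ) - p)))

/-! ## Second moment -/

/-- Noise `t` in the box of radius `2 ^ J`, full noise outside. -/
def rN (t : ℝ) (J : ℕ) : V → ℝ := fun v => if sd 0 v ≤ 2 ^ J then t else 1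

/-- The two arm event up to radius `2 ^ (J + 1)`. -/
def Tw (k J : ℕ) : Set (V → Bool) := Ev fun c => two c 0 (2 ^ k) (2 ^ (J + 1))

/-- One block. -/
def SMB_stmt : Prop :=
  ∃ k₀ : ℕ, ∀ k, k₀ ≤ k → ∃ (c₁ c₂ C : ℝ) (i₀ : ℕ), 0 < c₁ ∧ 0 < c₂ ∧ 0 < C ∧ k < i₀ ∧
    ∀ (t : ℝ) (p₀ J l : ℕ) (y : V) (B : Set V), 0 < t → t ≤ 1 → i₀ ≤ p₀ →
      c₁ ≤ t * (4 ^ p₀ * al k p₀) → Even y.1 → Even y.2 → B ⊆ box y (2 ^ p₀) → p₀ + 4 ≤ l → l ≤ J →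
      2 ^ l ≤ sd 0 y → sd 0 y < 2 ^ (l + 1) → sd 0 y ≤ 2 ^ J + 2 ^ p₀ →
        Q (rN t J) (Piv B (Tw k J)) (Piv B (Tw k J)) ≤
          C * (2 : ℝ) ^ (-((2 + c₂) * ((l : ℝ) - p₀))) * Q (rN t J) (Tw k J) (Tw k J)

/-- The block with index `z`: a square of side `2 m` around `2 m z`. -/
noncomputable def blo (m : ℕ) (z : ℤ × ℤ) : Finset V :=
  Finset.Icc (2 * m * z.1 - m) (2 * m * z.1 + m - 1) ×ˢ
    Finset.Icc (2 * m * z.2 - m) (2 * m * z.2 + m - 1)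

/-- The blocks which meet the annulus between the radii `m * M` and `N` (indices). -/
noncomputable def bix (m M N : ℕ) : Finset (ℤ × ℤ) :=
  ((Finset.Icc (-(N : ℤ)) N) ×ˢ (Finset.Icc (-(N : ℤ)) N)).filter
    fun z => ∃ v ∈ blo m z, m * M < sd 0 v ∧ sd 0 v ≤ N

/-- Geometry of the blocks. -/
def BLG_stmt : Prop :=
  ∀ (m M N : ℕ), 1 ≤ m → m ≤ N → 4 ≤ M →
    (∀ z z' : ℤ × ℤ, z ≠ z' → Disjoint (blo m z) (blo m z')) ∧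
    (∀ v : V, m * M < sd 0 v → sd 0 v ≤ N → ∃ z ∈ bix m M N, v ∈ blo m z) ∧
    (∀ z, (blo m z : Set V) ⊆ box (2 * m * z.1, 2 * m * z.2) m) ∧
    (∀ z ∈ bix m M N, m * M < sd 0 (2 * (m : ℤ) * z.1, 2 * (m : ℤ) * z.2) + m ∧
      sd 0 (2 * (m : ℤ) * z.1, 2 * (m : ℤ) * z.2) ≤ N + m) ∧
    ∀ r : ℕ, m ≤ r → (((bix m M N).filter fun z =>
      sd 0 (2 * (m : ℤ) * z.1, 2 * (m : ℤ) * z.2) < 2 * r).card : ℝ) ≤ 16 * ((r : ℝ) / m) ^ 2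

/-- Sum over the blocks. -/
def SMS_stmt : Prop :=
  ∃ k₀ : ℕ, ∀ k, k₀ ≤ k → ∃ (c₁ : ℝ) (i₀ M₁ : ℕ), 0 < c₁ ∧ k < i₀ ∧ 4 ≤ M₁ ∧
    ∀ (t : ℝ) (p₀ J : ℕ), 0 < t → t ≤ 1 → i₀ ≤ p₀ → c₁ ≤ t * (4 ^ p₀ * al k p₀) →
      p₀ + M₁ + 3 ≤ J →
        ∑ z ∈ bix (2 ^ p₀) (2 ^ M₁) (2 ^ J), Q (rN t J) (Piv (blo (2 ^ p₀) z : Set V) (Tw k J))
            (Piv (blo (2 ^ p₀) z : Set V) (Tw k J)) ≤
          1 / 2 * Q (rN t J) (Tw k J) (Tw k J)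

/-- Second moment bound at one time. -/
def SM1_stmt : Prop :=
  ∃ k₀ : ℕ, ∀ k, k₀ ≤ k → ∃ (c₁ C : ℝ) (i₀ M₁ : ℕ), 0 < c₁ ∧ 0 < C ∧ k < i₀ ∧
    ∀ (t : ℝ) (p₀ J : ℕ), 0 < t → t ≤ 1 → i₀ ≤ p₀ → c₁ ≤ t * (4 ^ p₀ * al k p₀) → k + 4 ≤ J →
      Q (rN t J) (Tw k J) (Tw k J) * be k (p₀ + M₁) ≤ C * be k (J + 1) ^ 2

/-- The key inequality (from part G). -/
def KEY_stmt : Prop :=
  ∃ k₀ : ℕ, ∀ k, k₀ ≤ k → ∃ (c ε : ℝ) (i₀ : ℕ), 0 < c ∧ 0 < ε ∧ ∀ i : ℕ, i₀ ≤ i →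
    c * (2 : ℝ) ^ (ε * i) ≤ 4 ^ i * al k i * be k i

/-- The second moment bound with an integrable function of the noise. The interface statement
`SM_stmt` of part H (helper95/DP/SpecH.lean) follows: `N = 2 ^ J`, `m = 2 ^ k` (module SMF). -/
def SMW_stmt : Prop :=
  ∃ k₀ : ℕ, ∀ k, k₀ ≤ k → ∃ (w : ℝ → ℝ) (J₀ : ℕ), (∀ t, 0 ≤ w t) ∧
    IntegrableOn w (Set.Ioc (0 : ℝ) 1) ∧ ∀ J, J₀ ≤ J → 0 < Pr (Tw k J) ∧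
      ∀ t : ℝ, 0 < t → t ≤ 1 → Q (rN t J) (Tw k J) (Tw k J) ≤ w t * Pr (Tw k J) ^ 2

end DP
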