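import Pool.Agent.helper96.DP.Defs

/-!
# Statements which the parts A (planar toolbox), B (finite probability) and C (RSW) provide

Every statement is a `Prop`; the modules prove `theorem XX : XX_stmt` or
`theorem XX (h : YY_stmt) ... : XX_stmt`.
-/

namespace DP

open MeasureTheory

/-! ## Part A: loops and rectangles -/

/-- Every connected set joining the inside to the outside of a loop hits the loop. -/
def LH_stmt : Prop :=
  ∀ (c : V → Bool) (k : Bool) (g : V) (ℓ : ℕ) (S : Set V), Loop c k g ℓ S →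
    ∀ (W : Set V) (u v : V), Con W u v → sd g u ≤ ℓ → 3 * ℓ ≤ sd g v → ∃ z ∈ S, Con W u z

/-- A loop is connected. -/
def LC_stmt : Prop :=
  ∀ (c : V → Bool) (k : Bool) (g : V) (ℓ : ℕ) (S : Set V), Loop c k g ℓ S →
    ∀ z ∈ S, ∀ z' ∈ S, Con S z z'

/-- Neighbouring cells. -/
def gnb (ℓ : ℕ) (g g' : V) : Prop :=
  g' = (g.1 + 2 * ℓ, g.2) ∨ g' = (g.1 - 2 * ℓ, g.2) ∨ g' = (g.1, g.2 + 2 * ℓ) ∨
    g' = (g.1, g.2 - 2 * ℓ)

/-- Loops around neighbouring cells intersect. -/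
def LN_stmt : Prop :=
  ∀ (c : V → Bool) (k : Bool) (g g' : V) (ℓ : ℕ) (S S' : Set V), gnb ℓ g g' →
    Loop c k g ℓ S → Loop c k g' ℓ S' → (S ∩ S').Nonempty

/-- A left to right crossing and a bottom to top crossing of a rectangle intersect. -/
def RC_stmt : Prop :=
  ∀ (a b d e : ℤ) (W W' : Set V), W ⊆ rect a b d e → W' ⊆ rect a b d e →
    ∀ u v u' v' : V, u.1 = a → v.1 = b → u'.2 = d → v'.2 = e → Con W u v → Con W' u' v' →
      (W ∩ W').Nonempty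

/-- Hex. -/
def HX_stmt : Prop :=
  ∀ (c : V → Bool) (k : Bool) (a b d e : ℤ), a ≤ b → d ≤ e →
    hcross c k a b d e ∨ vcross c (!k) a b d e

/-! ## Part A: annuli (the centre has an even sum of coordinates) -/

/-- `p` on the inner circle is connected by its colour to the outer circle. -/
def inX (c : V → Bool) (x : V) (m n : ℕ) (p : V) : Prop :=
  p ∈ bd x m ∧ ∃ u ∈ bd x n, Conn c (c p) (ann x m n) p u

/-- `u` on the outer circle is connected by its colour to the inner circle. -/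
def outX (c : V → Bool) (x : V) (m n : ℕ) (u : V) : Prop :=
  u ∈ bd x n ∧ ∃ p ∈ bd x m, Conn c (c u) (ann x m n) u p

/-- Four arms: alternating points on the inner circle. -/
def FI_stmt : Prop :=
  ∀ (c : V → Bool) (x : V) (m n : ℕ), Even (x.1 + x.2) → 1 ≤ m → m < n → four c x m n →
    ∃ p₁ p₂ p₃ p₄ : V, alt x m p₁ p₂ p₃ p₄ ∧ c p₁ = true ∧ c p₂ = false ∧ c p₃ = true ∧
      c p₄ = false ∧ inX c x m n p₁ ∧ inX c x m n p₂ ∧ inX c x m n p₃ ∧ inX c x m n p₄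

/-- Four arms: alternating points on the outer circle. -/
def FO_stmt : Prop :=
  ∀ (c : V → Bool) (x : V) (m n : ℕ), Even (x.1 + x.2) → 1 ≤ m → m < n → four c x m n →
    ∃ u₁ u₂ u₃ u₄ : V, alt x n u₁ u₂ u₃ u₄ ∧ c u₁ = true ∧ c u₂ = false ∧ c u₃ = true ∧
      c u₄ = false ∧ outX c x m n u₁ ∧ outX c x m n u₂ ∧ outX c x m n u₃ ∧ outX c x m n u₄

/-- Alternating crossing points on the inner circle separate. -/
def IF_stmt : Prop :=
  ∀ (c : V → Bool) (k : Bool) (x : V) (m n : ℕ), Even (x.1 + x.2) → 1 ≤ m → m < n →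
    ∀ p₁ p₂ p₃ p₄ : V, alt x m p₁ p₂ p₃ p₄ → c p₁ = k → c p₂ = !k → c p₃ = k → c p₄ = !k →
      inX c x m n p₁ → inX c x m n p₂ → inX c x m n p₃ → inX c x m n p₄ →
        ¬ Conn c k (ann x m n) p₁ p₃

/-- Alternating crossing points on the outer circle separate. -/
def OF_stmt : Prop :=
  ∀ (c : V → Bool) (k : Bool) (x : V) (m n : ℕ), Even (x.1 + x.2) → 1 ≤ m → m < n →
    ∀ u₁ u₂ u₃ u₄ : V, alt x n u₁ u₂ u₃ u₄ → c u₁ = k → c u₂ = !k → c u₃ = k → c u₄ = !k →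
      outX c x m n u₁ → outX c x m n u₂ → outX c x m n u₃ → outX c x m n u₄ →
        ¬ Conn c k (ann x m n) u₁ u₃

/-- Arms transport alternation from the inner to the outer circle. -/
def OT_stmt : Prop :=
  ∀ (c : V → Bool) (k : Bool) (x : V) (m n : ℕ), Even (x.1 + x.2) → 1 ≤ m → m < n →
    ∀ p₁ p₂ p₃ p₄ u₁ u₂ u₃ u₄ : V, alt x m p₁ p₂ p₃ p₄ → c p₁ = k → c p₂ = !k → c p₃ = k →
      c p₄ = !k → u₁ ∈ bd x n → u₂ ∈ bd x n → u₃ ∈ bd x n → u₄ ∈ bd x n →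
        Conn c k (ann x m n) p₁ u₁ → Conn c (!k) (ann x m n) p₂ u₂ →
          Conn c k (ann x m n) p₃ u₃ → Conn c (!k) (ann x m n) p₄ u₄ → alt x n u₁ u₂ u₃ u₄

/-- Crossing interface edges on the outer circle: on both arcs between crossing points `u`, `v` of
different colours there is an edge `{a, b}` OF THE ARC, `a` connected to `u` (by the colour of `u`),
`b` of the colour of `v` and connected to the inner circle. (The conditions `b ≠ v`, `a ≠ u` say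
that the edge belongs to the arc also if `u` and `v` are neighbours.) -/
def QO_stmt : Prop :=
  ∀ (c : V → Bool) (x : V) (n' n : ℕ), Even (x.1 + x.2) → 1 ≤ n' → n' < n →
    ∀ u v : V, outX c x n' n u → outX c x n' n v → c u ≠ c v →
      (∃ a b : V, (nxt x n a b ∨ (nxt x n b a ∧ b ≠ v)) ∧ onArc x n u v a ∧ onArc x n u v b ∧
        c b = c v ∧ Conn c (c u) (ann x n' n) u a ∧ outX c x n' n b) ∧
      (∃ a b : V, ((nxt x n a b ∧ a ≠ u) ∨ nxt x n b a) ∧ onArc x n v u a ∧ onArc x n v u b ∧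
        c b = c v ∧ Conn c (c u) (ann x n' n) u a ∧ outX c x n' n b)

/-- Crossing interface edges on the inner circle. -/
def QI_stmt : Prop :=
  ∀ (c : V → Bool) (x : V) (m m' : ℕ), Even (x.1 + x.2) → 1 ≤ m → m < m' →
    ∀ u v : V, inX c x m m' u → inX c x m m' v → c u ≠ c v →
      (∃ a b : V, (nxt x m a b ∨ (nxt x m b a ∧ b ≠ v)) ∧ onArc x m u v a ∧ onArc x m u v b ∧
        c b = c v ∧ Conn c (c u) (ann x m m') u a ∧ inX c x m m' b) ∧
      (∃ a b : V, ((nxt x m a b ∧ a ≠ u) ∨ nxt x m b a) ∧ onArc x m v u a ∧ onArc x m v u b ∧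
        c b = c v ∧ Conn c (c u) (ann x m m') u a ∧ inX c x m m' b)

/-- Three points in order near a point `y` of the outer circle. -/
def TO_stmt : Prop :=
  ∀ (c : V → Bool) (k : Bool) (x : V) (n : ℕ) (y : V) (ρ : ℕ), Even (x.1 + x.2) → y ∈ bd x n →
    1 ≤ ρ → ρ ≤ n → ∀ u₁ u₂ u₃ z : V, onArc x n u₁ u₃ u₂ →
      (∀ w, onArc x n u₁ u₃ w → sd y w < ρ) → c u₁ = k → c u₂ = !k → c u₃ = k → sd y z = ρ →
        Conn c (!k) (box x n ∩ box y ρ) u₂ z → ¬ Conn c k (box x n ∩ box y ρ) u₁ u₃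

/-- Three points in order near a point `y` of the inner circle. -/
def TI_stmt : Prop :=
  ∀ (c : V → Bool) (k : Bool) (x : V) (m : ℕ) (y : V) (ρ : ℕ), Even (x.1 + x.2) → y ∈ bd x m →
    1 ≤ ρ → ρ ≤ m → ∀ u₁ u₂ u₃ z : V, onArc x m u₁ u₃ u₂ →
      (∀ w, onArc x m u₁ u₃ w → sd y w < ρ) → c u₁ = k → c u₂ = !k → c u₃ = k → sd y z = ρ →
        Conn c (!k) ({v | m ≤ sd x v} ∩ box y ρ) u₂ z →
          ¬ Conn c k ({v | m ≤ sd x v} ∩ box y ρ) u₁ u₃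

/-- One step of the exploration of the interface which starts in the lower left corner of the
rectangle: `X` is the set of revealed sites. -/
def EX_stmt : Prop :=
  ∀ (c : V → Bool) (a b d e : ℤ) (X : Set V), a ≤ b → d ≤ e → X ⊆ rect a b d e →
    (∀ v ∈ X, c v = true → ∃ u, u.1 = a ∧ Conn c true X v u) →
    (∀ v ∈ X, c v = false → ∃ u, u.2 = d ∧ Conn c false X v u) →
    (∃ v ∈ X, c v = true ∧ v.1 = b) ∨ (∃ v ∈ X, c v = false ∧ v.2 = e) ∨
      ∃ w ∈ rect a b d e, w ∉ X ∧ (w.1 = a ∨ ∃ v ∈ X, c v = true ∧ Adj v w) ∧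
        (w.2 = d ∨ ∃ v ∈ X, c v = false ∧ Adj v w)

/-! ## Part C -/

/-- Loops at every scale. -/
def C1_stmt : Prop :=
  ∃ c₀ : ℝ, 0 < c₀ ∧ ∃ ℓ₀ : ℕ, 0 < ℓ₀ ∧ ∀ (k : Bool) (g : V) (ℓ : ℕ), ℓ₀ ≤ ℓ →
    c₀ ≤ Pr (Ev fun c => ∃ S, Loop c k g ℓ S)

/-- One arm. -/
def C2_stmt : Prop :=
  ∃ C : ℝ, 0 < C ∧ ∃ a : ℝ, 0 < a ∧ ∀ (k : Bool) (x : V) (m n : ℕ), 1 ≤ m → m ≤ n →
    Pr (Ev fun c => reach c k x m n) ≤ C * ((m : ℝ) / n) ^ a

/-! ## Part B -/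

/-- Values in `[0, 1]`. -/
def Profile (ρ : V → ℝ) : Prop := ∀ v, 0 ≤ ρ v ∧ ρ v ≤ 1

def Bmono_stmt : Prop :=
  ∀ (ρ : V → ℝ) (F F' G G' : Set (V → Bool)), F ⊆ F' → G ⊆ G' → Q ρ F G ≤ Q ρ F' G'

def Bunion_stmt : Prop :=
  ∀ (ρ : V → ℝ) (N M : ℕ) (F : Fin N → Set (V → Bool)) (G : Fin M → Set (V → Bool)),
    Q ρ (⋃ i, F i) (⋃ j, G j) ≤ ∑ i, ∑ j, Q ρ (F i) (G j)

/-- Subadditivity in each argument. -/
def Bsub_stmt : Prop :=
  ∀ (ρ : V → ℝ) (F F' G : Set (V → Bool)), Q ρ (F ∪ F') G ≤ Q ρ F G + Q ρ F' G ∧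
    Q ρ G (F ∪ F') ≤ Q ρ G F + Q ρ G F'

def Bsymm_stmt : Prop := ∀ (ρ : V → ℝ) (F G : Set (V → Bool)) (A : Set V), Loc F A → Loc G A →
  Q ρ F G = Q ρ G F

def Bindep_stmt : Prop :=
  ∀ (ρ : V → ℝ) (F G F' G' : Set (V → Bool)) (A A' : Set V), Disjoint A A' → Loc F A → Loc G A →
    Loc F' A' → Loc G' A' → Q ρ (F ∩ F') (G ∩ G') = Q ρ F G * Q ρ F' G'

def Bcongr_stmt : Prop :=
  ∀ (ρ ρ' : V → ℝ) (F G : Set (V → Bool)) (A : Set V), Loc F A → Loc G A →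
    (∀ v ∈ A, ρ v = ρ' v) → Q ρ F G = Q ρ' F G

def Bzero_stmt : Prop :=
  ∀ (ρ : V → ℝ) (F G : Set (V → Bool)) (A : Set V), Loc F A → Loc G A →
    (∀ v ∈ A, ρ v = 0) → Q ρ F G = Pr (F ∩ G)

def Bone_stmt : Prop :=
  ∀ (ρ : V → ℝ) (F G : Set (V → Bool)) (A : Set V), Loc F A → Loc G A →
    (∀ v ∈ A, ρ v = 1) → Q ρ F G = Pr F * Pr G

def Bmarg_stmt : Prop :=
  ∀ (ρ : V → ℝ) (F : Set (V → Bool)) (A : Set V), Loc F A → Q ρ F Set.univ = Pr F

/-- Noise decreases `Q ρ F F`. -/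
def Banti_stmt : Prop :=
  ∀ (ρ ρ' : V → ℝ) (F : Set (V → Bool)) (A : Set V), Profile ρ → Profile ρ' → Loc F A →
    (∀ v ∈ A, ρ v ≤ ρ' v) → Q ρ' F F ≤ Q ρ F F

/-- Cauchy-Schwarz. -/
def Bcs_stmt : Prop :=
  ∀ (ρ : V → ℝ) (F G : Set (V → Bool)) (A : Set V), Profile ρ → Loc F A → Loc G A →
    Q ρ F G ^ 2 ≤ Q ρ F F * Q ρ G G

/-- FKG for the pair measure. -/
def Bfkg_stmt : Prop :=
  ∀ (ρ : V → ℝ) (k : Bool) (F G : Set (V → Bool)) (A : Set V), Loc F A → Loc G A → Mon k F →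
    Mon k G → Q ρ F F * Q ρ G G ≤ Q ρ (F ∩ G) (F ∩ G)

/-- Generalised FKG for the pair measure. -/
def Bgen_stmt : Prop :=
  ∀ (ρ : V → ℝ) (Ep Em Up Um : Set (V → Bool)) (S Sp Sm : Set V), Disjoint S Sp → Disjoint S Sm →
    Disjoint Sp Sm → Loc Ep (S ∪ Sp) → Loc Em (S ∪ Sm) → Loc Up Sp → Loc Um Sm → Mon true Ep →
    Mon false Em → Mon true Up → Mon false Um →
      Q ρ (Ep ∩ Em) (Ep ∩ Em) * (Q ρ Up Up * Q ρ Um Um) ≤
        Q ρ (Ep ∩ Em ∩ (Up ∩ Um)) (Ep ∩ Em ∩ (Up ∩ Um))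

/-- For every local event. -/
def Bsq_stmt : Prop :=
  ∀ (ρ : V → ℝ) (F : Set (V → Bool)) (A : Set V), Profile ρ → Loc F A → Pr F ^ 2 ≤ Q ρ F F

/-- The inequality of BK type. -/
def Bbk_stmt : Prop :=
  ∀ (k : Bool) (Λ : Finset V) (D D' : Set (Finset V)) (I : Set (V → Bool)),
    (∀ K ∈ D, K ⊆ Λ) → (∀ K ∈ D', K ⊆ Λ) → Loc I (Λ : Set V) → Mon (!k) I →
      Pr (I ∩ Ev fun c => ∃ K ∈ D, ∃ L ∈ D', Disjoint K L ∧ (∀ v ∈ K, c v = k) ∧ ∀ v ∈ L, c v = k) ≤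
        Pr (I ∩ Ev fun c => ∃ K ∈ D, ∀ v ∈ K, c v = k) *
          Pr (Ev fun c => ∃ L ∈ D', ∀ v ∈ L, c v = k)

/-- Telescoped Russo formula for an increasing event and uniform noise. -/
def Brusso_stmt : Prop :=
  ∀ (Λ : Finset V) (F : Set (V → Bool)) (s t : ℝ), Loc F (Λ : Set V) → Mon true F → 0 ≤ s → s ≤ t →
    t ≤ 1 → (t - s) * ∑ v ∈ Λ, Q (fun _ => t) (Piv {v} F) (Piv {v} F) ≤
      4 * (Q (fun _ => s) F F - Q (fun _ => t) F F)

/-- Stability: small noise on `L` only. -/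
def Bstab_stmt : Prop :=
  ∀ (L : Finset V) (F : Set (V → Bool)) (A : Set V) (ρ : V → ℝ) (s : ℝ), Loc F A → 0 ≤ s → s ≤ 1 →
    (∀ v ∈ L, ρ v = s) → (∀ v, v ∉ L → ρ v = 0) →
      Pr F - s / 2 * ∑ v ∈ L, Pr (Piv {v} F) ≤ Q ρ F F

open Classical in
/-- Blocks: full noise on all blocks plus pivotal blocks. -/
def Bblocks_stmt : Prop :=
  ∀ (ρ : V → ℝ) (F : Set (V → Bool)) (A : Set V) (N : ℕ) (B : Fin N → Finset V), Profile ρ →
    Loc F A → (∀ i j, i ≠ j → Disjoint (B i) (B j)) →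
      Q ρ F F ≤ Q (fun v => if ∃ i, v ∈ B i then 1 else ρ v) F F +
        ∑ i, Q ρ (Piv (B i : Set V) F) (Piv (B i : Set V) F)

/-- Change of coordinates by a symmetry of the lattice which preserves primal and dual sites. -/
def IsSym (φ : V ≃ V) : Prop :=
  (∀ u v, sd (φ u) (φ v) = sd u v) ∧
    (∀ v, ((φ v).1 % 2 = 0 ∧ (φ v).2 % 2 = 0) ↔ (v.1 % 2 = 0 ∧ v.2 % 2 = 0)) ∧
    (∀ v, ((φ v).1 % 2 = 1 ∧ (φ v).2 % 2 = 1) ↔ (v.1 % 2 = 1 ∧ v.2 % 2 = 1))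

def Bsym_stmt : Prop :=
  ∀ (φ : V ≃ V) (ρ : V → ℝ) (F G : Set (V → Bool)) (A : Set V), Loc F A → Loc G A →
    Q (fun v => ρ (φ.symm v)) {b | (fun v => b (φ v)) ∈ F} {b | (fun v => b (φ v)) ∈ G} = Q ρ F G

/-- Colour flip composed with a bijection of the sites. -/
def Bflip_stmt : Prop :=
  ∀ (φ : V ≃ V) (F : Set (V → Bool)) (A : Set V), Loc F A →
    Pr {b | (fun v => !(b (φ v))) ∈ F} = Pr F

/-! ## Part B: explorations

A rule chooses from the set `X` of revealed sites and the configuration a new block (a nonempty set of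
unrevealed sites) or stops (the empty set); it depends on the configuration only through the
revealed sites. `run` is the set of revealed sites after `n` steps. -/

/-- A rule (for the coin configuration). -/
def Rule (Λ : Finset V) (next : Finset V → (V → Bool) → Finset V) : Prop :=
  ∀ X b, next X b ⊆ Λ \ X ∧ ∀ b', (∀ v ∈ X, b v = b' v) → next X b = next X b'

/-- The revealed sites after `n` steps. -/
def run (next : Finset V → (V → Bool) → Finset V) (b : V → Bool) : ℕ → Finset V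
  | 0 => ∅
  | n + 1 => run next b n ∪ next (run next b n) b

/-- OSSS inequality for block explorations. `g` takes values in `[0, 1]`; the blocks revealed are
always among the disjoint blocks `B i`; `F` is determined by the revealed sites at the end. -/
def Bosss_stmt : Prop :=
  ∀ (Λ : Finset V) (next : Finset V → (V → Bool) → Finset V) (N : ℕ) (B : Fin N → Finset V)
    (F : Set (V → Bool)) (g : (V → Bool) → ℝ) (I : Fin N → ℝ), Rule Λ next →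
    (∀ i j, i ≠ j → Disjoint (B i) (B j)) → (∀ i, B i ⊆ Λ) → (∀ i, (B i).Nonempty) →
    (∀ X b, next X b = ∅ ∨ ∃ i, next X b = B i) → Loc F (Λ : Set V) →
    (∀ b b', (∀ v ∈ Λ, b v = b' v) → g b = g b') → (∀ b, 0 ≤ g b ∧ g b ≤ 1) →
    (∀ b b', (∀ v ∈ run next b Λ.card, b v = b' v) → (b ∈ F ↔ b' ∈ F)) →
    (∀ i, ∫ w, |g (fun v => (w v).1) - g (fun v => (w v).2)|
      ∂(PP fun v => if v ∈ B i then 1 else 0) ≤ I i) →
    (∫ b, F.indicator 1 b * g b ∂P1) - Pr F * ∫ b, g b ∂P1 ≤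
      ∑ i, Pr {b | B i ⊆ run next b Λ.card} * I i

/-- Tree inequality. Single sites are revealed; along the exploration the conditional influence of
the next site on `F` is at most `κ` if the site is in `L₀`; `g = E[F | coins in L₀]`. The
conclusion bounds the variance of `g`. -/
def Btree_stmt : Prop :=
  ∀ (Λ L₀ : Finset V) (next : Finset V → (V → Bool) → Finset V) (F : Set (V → Bool)) (κ : ℝ),
    Rule Λ next → L₀ ⊆ Λ → 0 ≤ κ → (∀ X b, (next X b).card ≤ 1) → Loc F (Λ : Set V) →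
    (∀ b b', (∀ v ∈ run next b Λ.card, b v = b' v) → (b ∈ F ↔ b' ∈ F)) →
    (∀ b n, ∀ v ∈ next (run next b n) b, v ∈ L₀ →
      Pr {b' | (fun w => if w ∈ run next b n then b w else b' w) ∈ Piv {v} F} ≤ κ) →
    (∫ b, (∫ b', F.indicator (1 : (V → Bool) → ℝ) (fun w => if w ∈ L₀ then b w else b' w) ∂P1) ^ 2 ∂P1)
        - Pr F ^ 2 ≤
      κ * ∑ v ∈ L₀, Pr (Piv {v} F)

end DP
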