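import Pool.Agent.helper96.DP.API

/-!
# Part D: counting interface edges, bad events, deterministic separation

Side parameter `s`: `s = true` is the outer side of an annulus (the circle `bd x n`, region
`box x n`), `s = false` the inner side (the circle `bd x n`, region `{v | n ≤ sd x v}`).
-/

namespace DP

open MeasureTheory

/-- Region bounded by `bd x n`. -/
def HS (s : Bool) (x : V) (n : ℕ) : Set V := if s = true then box x n else {v | n ≤ sd x v}

/-- Annulus between `bd x n` and `bd x n'` (`n' < n` for `s = true`, `n < n'` for `s = false`). -/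
def AN (s : Bool) (x : V) (n n' : ℕ) : Set V := if s = true then ann x n' n else ann x n n'

/-- `u ∈ bd x n` is connected by its colour to `bd x n'` in the annulus. -/
def crX (s : Bool) (c : V → Bool) (x : V) (n n' : ℕ) (u : V) : Prop :=
  if s = true then outX c x n' n u else inX c x n n' u

/-- `p` is beyond `bd x n'`. -/
def far (s : Bool) (x : V) (n' : ℕ) (p : V) : Prop := if s = true then sd x p ≤ n' else n' ≤ sd x p

/-- The two radii differ by at least `r`. -/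
def gap (s : Bool) (n n' r : ℕ) : Prop := if s = true then n' + r ≤ n else n + r ≤ n'

/-- Neighbours on the circle. -/
def nb (x : V) (n : ℕ) (a b : V) : Prop := nxt x n a b ∨ nxt x n b a

/-- The circle as a finset. -/
noncomputable def bdF (x : V) (n : ℕ) : Finset V :=
  ((Finset.Icc (x.1 - n) (x.1 + n)) ×ˢ (Finset.Icc (x.2 - n) (x.2 + n))).filter
    fun v => sd x v = n

/-- Both ends of the edge `{a, b}` are connected in `G` to distance `R` from `b`; the colours are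
different. -/
def TwoEnd (c : V → Bool) (G : Set V) (R : ℕ) (a b : V) : Prop :=
  c a ≠ c b ∧ (∃ z, sd b z = R ∧ Conn c (c a) G a z) ∧ ∃ z, sd b z = R ∧ Conn c (c b) G b z

/-- A third arm: `b` (not of colour `k`) is connected in `G` to distance `R`, and there are disjoint
paths of colour `k` from `a` to distance `R` and from distance `r` to distance `R` of `b`. -/
def Third (c : V → Bool) (k : Bool) (G : Set V) (r R : ℕ) (a b : V) : Prop :=
  c a = k ∧ c b = !k ∧ (∃ z, sd b z = R ∧ Conn c (!k) G b z) ∧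
    ∃ (l l' : List V) (z w z' : V), sd b z = R ∧ sd b w = r ∧ sd b z' = R ∧
      IsPath {v | v ∈ G ∧ c v = k} l a z ∧ IsPath {v | v ∈ G ∧ c v = k} l' w z' ∧ l.Disjoint l'

/-- The bad event at the circle `bd x n`, between the local radii `r` and `R`. -/
def Bad (s : Bool) (c : V → Bool) (x : V) (n r R : ℕ) : Prop :=
  ∃ (a b : V) (k : Bool), nb x n a b ∧ Third c k (HS s x n ∩ box b R) r R a b

/-! ## Geometry of the circle -/

def CG1_stmt : Prop :=
  ∀ (x : V) (n : ℕ), 1 ≤ n → (∀ u ∈ bd x n, 0 < pos x n u ∧ pos x n u ≤ 8 * n) ∧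
    (∀ u ∈ bd x n, ∀ v ∈ bd x n, pos x n u = pos x n v → u = v) ∧
    ∀ p : ℤ, 0 < p → p ≤ 8 * n → ∃ u ∈ bd x n, pos x n u = p

def CG2_stmt : Prop :=
  ∀ (x : V) (n : ℕ), 1 ≤ n → ∀ u ∈ bd x n, ∀ v ∈ bd x n,
    (sd u v : ℤ) ≤ |pos x n u - pos x n v| ∧ (sd u v : ℤ) ≤ 8 * n - |pos x n u - pos x n v| ∧
      min |pos x n u - pos x n v| (8 * n - |pos x n u - pos x n v|) ≤ 2 * (sd u v : ℤ)

def CG3_stmt : Prop := ∀ (x : V) (n : ℕ) (a b : V), 1 ≤ n → nxt x n a b → Adj a b ∧ a ≠ b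

/-- One of the two arcs between close points is short. -/
def CG4_stmt : Prop :=
  ∀ (x : V) (n : ℕ), 1 ≤ n → ∀ u ∈ bd x n, ∀ v ∈ bd x n,
    (∀ w, onArc x n u v w → sd u w ≤ 2 * sd u v ∧ sd v w ≤ 2 * sd u v) ∨
      ∀ w, onArc x n v u w → sd u w ≤ 2 * sd u v ∧ sd v w ≤ 2 * sd u v

/-! ## Counting -/

/-- Colour changes in an interval give an alternating sequence. `f i = none` means: no crossing
site at position `i`. -/
def SQ_stmt : Prop :=
  ∀ (f : ℤ → Option Bool) (p : ℤ) (L t : ℕ) (I : Finset ℤ),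
    (∀ i ∈ I, p < i ∧ i < p + L ∧ ∃ k, f i = some k ∧ f (i + 1) = some (!k)) → t ≤ I.card →
      1 ≤ t → ∃ (u : ℕ → ℤ) (k : Bool), (∀ i ≤ t, p < u i ∧ u i ≤ p + L ∧
        f (u i) = some (xor k (decide (i % 2 = 1)))) ∧ ∀ i < t, u i < u (i + 1)

/-- `t` crossing sites of colour `k` in `J`, pairwise not connected in `H`. -/
def Multi (c : V → Bool) (k : Bool) (H J : Set V) (y : V) (R t : ℕ) : Prop :=
  ∃ u : ℕ → V, (∀ i < t, u i ∈ J ∧ ∃ z, sd y z = R ∧ Conn c k H (u i) z) ∧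
    ∀ i < t, ∀ i' < t, i ≠ i' → ¬ Conn c k H (u i) (u i')

/-- Several crossing clusters (from `Bbk`, `LH`; `c₀` is a lower bound for loops at scale `ℓ`). -/
def MA_stmt : Prop :=
  ∀ (c₀ : ℝ) (ℓ R t : ℕ) (y : V) (k : Bool) (H J : Set V), 0 ≤ c₀ →
    (∀ k' g, c₀ ≤ Pr (Ev fun c => ∃ S, Loop c k' g ℓ S)) → J ⊆ box y ℓ → 3 * ℓ ≤ R → 1 ≤ ℓ →
      H ⊆ box y R → Pr (Ev fun c => Multi c k H J y R t) ≤ (1 - c₀) ^ t

open Classical in
/-- The expected number of crossing interface edges. -/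
def D1_stmt : Prop :=
  ∃ C : ℝ, 0 < C ∧ ∀ (s : Bool) (x : V) (n R : ℕ), Even (x.1 + x.2) → 1 ≤ R → R ≤ n →
    ∑ b ∈ bdF x n, ∑ a ∈ (bdF x n).filter (fun a => nb x n a b),
      Pr (Ev fun c => TwoEnd c (HS s x n ∩ box b R) R a b) ≤ C * ((n : ℝ) / R)

/-- The third arm costs a one-arm probability (from `Bbk`). -/
def D2_stmt : Prop :=
  ∀ (k : Bool) (G : Set V) (r R : ℕ) (a b : V), G ⊆ box b R → a ≠ b → r ≤ R →
    Pr (Ev fun c => Third c k G r R a b) ≤
      Pr (Ev fun c => TwoEnd c G R a b) * Pr (Ev fun c => reach c k b r R)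

/-- The bad event is unlikely. -/
def DB_stmt : Prop :=
  ∃ C : ℝ, 0 < C ∧ ∃ a : ℝ, 0 < a ∧ ∀ (s : Bool) (x : V) (n r R : ℕ), Even (x.1 + x.2) →
    1 ≤ r → r ≤ R → R ≤ n →
      Pr (Ev fun c => Bad s c x n r R) ≤ C * ((n : ℝ) / R) * ((r : ℝ) / R) ^ a

/-- The bad event is local. -/
def DL_stmt : Prop :=
  ∀ (s : Bool) (x : V) (n r R : ℕ), R < n →
    Loc (Ev fun c => Bad s c x n r R) {v | n ≤ sd x v + R ∧ sd x v ≤ n + R ∧ v ∈ HS s x n}

/-! ## Deterministic separation -/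

/-- Rerouting lemma: a path from `a` and two disjoint paths. -/
def ML_stmt : Prop :=
  ∀ (W : Set V) (a z w₁ z₁ w₂ z₂ : V) (l₁ l₂ : List V), Con W a z → IsPath W l₁ w₁ z₁ →
    IsPath W l₂ w₂ z₂ → l₁.Disjoint l₂ → ∃ (l : List V) (z' : V), IsPath W l a z' ∧
      (z' = z ∨ z' = z₁ ∨ z' = z₂) ∧ (l.Disjoint l₁ ∨ l.Disjoint l₂)

/-- Different crossing interface edges are separated. -/
def DE_stmt : Prop :=
  ∀ (s : Bool) (c : V → Bool) (x : V) (n n' r₂ r₃ : ℕ), Even (x.1 + x.2) → 1 ≤ n' → gap s n n' r₃ →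
    8 ≤ r₂ → 8 * r₂ ≤ r₃ → r₃ ≤ n → ¬ Bad s c x n r₂ r₃ → ∀ a b a' b' : V, nb x n a b →
      nb x n a' b' → c a ≠ c b → c a' ≠ c b' → crX s c x n n' a → crX s c x n n' b →
        crX s c x n n' a' → crX s c x n n' b' → ¬ ((a = a' ∧ b = b') ∨ (a = b' ∧ b = a')) →
          r₂ ≤ sd a a' + 4

/-- Simple paths from far away avoid a neighbourhood of the ends of other interface edges. -/
def DA_stmt : Prop :=
  ∀ (s : Bool) (c : V → Bool) (k : Bool) (x : V) (n n' r₁ r₂ : ℕ), Even (x.1 + x.2) → 1 ≤ n' →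
    gap s n n' r₂ → 1 ≤ r₁ → r₁ < r₂ → r₂ ≤ n → ¬ Bad s c x n r₁ r₂ → ∀ a b : V, nb x n a b →
      c a = k → c b = !k → crX s c x n n' a → crX s c x n n' b → ∀ (u p : V) (l : List V),
        r₂ ≤ sd b u → far s x n' p → IsPath {v | v ∈ HS s x n ∧ c v = k} l u p → l.Nodup →
          ∀ w ∈ l, r₁ ≤ sd b w

/-- Colour of the arm number `i`. -/
def kol (i : ℕ) : Bool := decide (i % 2 = 0)

/-- End points in order: different for two arms, alternating for four arms. -/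
def Ord (j : ℕ) (x : V) (n : ℕ) (u : ℕ → V) : Prop :=
  if j = 4 then alt x n (u 0) (u 1) (u 2) (u 3) else u 0 ≠ u 1

/-- Deterministic separation of the end points of the arms. -/
def D3_stmt : Prop :=
  ∀ (j : ℕ) (s : Bool) (c : V → Bool) (x : V) (n n' r₁ r₂ r₃ : ℕ), j = 2 ∨ j = 4 →
    Even (x.1 + x.2) → 1 ≤ n' → gap s n n' r₃ → 1 ≤ r₁ → 8 * r₁ ≤ r₂ → 8 ≤ r₂ → 16 * r₂ ≤ r₃ →
      r₃ ≤ n → ¬ Bad s c x n (r₂ + 4) r₃ → ¬ Bad s c x n r₁ r₂ → ∀ u : ℕ → V, Ord j x n u →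
        (∀ i < j, c (u i) = kol i ∧ crX s c x n n' (u i)) →
          ∃ u' : ℕ → V, Ord j x n u' ∧
            (∀ i < j, u' i ∈ bd x n ∧ Conn c (kol i) (AN s x n n') (u i) (u' i)) ∧
            (∀ i < j, ∀ i' < j, i ≠ i' → r₂ ≤ sd (u' i) (u' i')) ∧
            ∀ i < j, ∀ i' < j, kol i ≠ kol i' → ∀ (p : V) (l : List V), far s x n' p →
              IsPath {v | v ∈ HS s x n ∧ c v = kol i} l (u' i) p → l.Nodup →
                ∀ w ∈ l, r₁ ≤ sd (u' i') w

end DP
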