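import Pool.Agent.helper96.DP.SpecD

/-!
# Part E: chains of loops, routing, separation of arms, quasi-multiplicativity

All radii are powers of two. `j = 2` (black, white) or `j = 4` (black, white, black, white) arms,
numbered `0, ..., j - 1`, of colour `kol i`. The noise profile `ρ` is arbitrary.
-/

namespace DP

open MeasureTheory

/-! ## Chains of loops -/

/-- Consecutive cells are neighbours. -/
def Chn (ℓ : ℕ) (gs : List V) : Prop := gs.IsChain (gnb ℓ)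

/-- Loops of colour `k` around all cells of the list. -/
def Full (c : V → Bool) (k : Bool) (ℓ : ℕ) (gs : List V) : Prop :=
  ∀ g ∈ gs, ∃ S, Loop c k g ℓ S

/-- The region on which `Full` depends. -/
def reg (ℓ : ℕ) (gs : List V) : Set V := {v | ∃ g ∈ gs, sd g v < 3 * ℓ}

/-- The loops of a chain form a connected set. -/
def CH1_stmt : Prop :=
  ∀ (c : V → Bool) (k : Bool) (ℓ : ℕ) (gs : List V), Full c k ℓ gs → Chn ℓ gs → gs ≠ [] →
    ∃ U : Set V, (∀ v ∈ U, v ∈ reg ℓ gs ∧ c v = k) ∧ (∀ z ∈ U, ∀ z' ∈ U, Con U z z') ∧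
      ∀ g ∈ gs, ∃ S, Loop c k g ℓ S ∧ S ⊆ U

/-- A chain with loops connects everything of its colour which leaves one of the cells; it reaches
beyond every half plane through its last cell (here: a point `z` of the loops on every straight
half line from a cell). -/
def CH2_stmt : Prop :=
  ∀ (c : V → Bool) (k : Bool) (ℓ : ℕ) (gs : List V), Full c k ℓ gs → Chn ℓ gs → gs ≠ [] → 1 ≤ ℓ →
    ∃ U : Set V, (∀ v ∈ U, v ∈ reg ℓ gs ∧ c v = k) ∧ (∀ z ∈ U, ∀ z' ∈ U, Con U z z') ∧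
      (∀ g ∈ gs, ∀ (W : Set V) (u v : V), Con W u v → sd g u ≤ ℓ → 3 * ℓ ≤ sd g v →
        ∃ z ∈ U, Con W u z) ∧
      ∀ g ∈ gs, (∃ t : ℕ, 1 ≤ t ∧ (g.1 + t, g.2) ∈ U) ∧ (∃ t : ℕ, 1 ≤ t ∧ (g.1 - t, g.2) ∈ U) ∧
        (∃ t : ℕ, 1 ≤ t ∧ (g.1, g.2 + t) ∈ U) ∧ ∃ t : ℕ, 1 ≤ t ∧ (g.1, g.2 - t) ∈ U

/-- Probability of the loops of a chain. -/
def CH3_stmt : Prop :=
  ∀ (c₀ : ℝ) (ℓ : ℕ) (k : Bool) (ρ : V → ℝ) (gs : List V), Profile ρ → 0 ≤ c₀ →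
    (∀ g, c₀ ≤ Pr (Ev fun c => ∃ S, Loop c k g ℓ S)) →
      c₀ ^ (2 * gs.length) ≤ Q ρ (Ev fun c => Full c k ℓ gs) (Ev fun c => Full c k ℓ gs)

/-- Locality and monotonicity. -/
def CH4_stmt : Prop :=
  ∀ (ℓ : ℕ) (k : Bool) (gs : List V), Loc (Ev fun c => Full c k ℓ gs) (reg ℓ gs) ∧
    Mon k (Ev fun c => Full c k ℓ gs)

/-! ## Arms with marked end points -/

/-- Standard points: right, top, left, bottom. -/
def zpt (x : V) (n : ℕ) (i : ℕ) : V :=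
  if i % 4 = 0 then (x.1 + n, x.2) else if i % 4 = 1 then (x.1, x.2 + n)
    else if i % 4 = 2 then (x.1 - n, x.2) else (x.1, x.2 - n)

/-- Data at the other end of the arms: `I i` is where the arm number `i` must arrive, `N k` is
forbidden for the arms of colour `k`. -/
structure Dat where
  /-- where the arm number `i` arrives -/
  I : ℕ → Set V
  /-- forbidden for the arms of colour `k` -/
  N : Bool → Set V

/-- The data live beyond radius `r` (inside `box x r` for `s = true`, outside for `s = false`). -/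
def Dat.ok (s : Bool) (x : V) (r : ℕ) (D : Dat) : Prop :=
  if s = true then (∀ i, D.I i ⊆ box x r) ∧ ∀ k, D.N k ⊆ box x r
  else (∀ i, D.I i ⊆ {v | r ≤ sd x v}) ∧ (∀ k, D.N k ⊆ {v | r ≤ sd x v}) ∧
    ∃ M, ∀ k, {v | M < sd x v} ⊆ D.N k

/-- Free other end: `bd x m`; arms stay between `bd x n` and `bd x m`. -/
def Dfree (s : Bool) (x : V) (m : ℕ) : Dat where
  I := fun _ => bd x m
  N := fun _ => if s = true then {v | sd x v < m} else {v | m < sd x v}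

/-- The points at distance at most `A` from a point `y l` of the other colour. -/
def opp (j : ℕ) (y : ℕ → V) (A : ℕ) (k : Bool) : Set V :=
  {v | ∃ l < j, kol l ≠ k ∧ sd (y l) v ≤ A}

/-- Other end marked at the standard points of `bd x m` (used for `s = true`). -/
def Dmark (j : ℕ) (x : V) (m : ℕ) : Dat where
  I := fun i => {p | p ∈ bd x m ∧ sd (zpt x m i) p ≤ m / 64}
  N := fun k => {v | sd x v < m} ∪ opp j (zpt x m) (m / 8) k

/-- Free arms at `bd x n`. -/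
def Fam (c : V → Bool) (j : ℕ) (s : Bool) (x : V) (n : ℕ) (D : Dat) : Prop :=
  ∃ u : ℕ → V, Ord j x n u ∧ ∀ i < j, u i ∈ bd x n ∧
    ∃ p ∈ D.I i, Conn c (kol i) (HS s x n \ D.N (kol i)) p (u i)

/-- The arms of colour `k` with end points near the points `y i` of `bd x n` (up to a rotation of
the indices by two if `j = 4`), avoiding the `A`-neighbourhoods of the end points of the other
colour. -/
def MrkC (c : V → Bool) (j : ℕ) (s : Bool) (x : V) (n : ℕ) (D : Dat) (y : ℕ → V) (a A : ℕ)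
    (k : Bool) : Prop :=
  (∀ i < j, kol i = k → ∃ p ∈ D.I i, ∃ u ∈ bd x n, sd (y i) u ≤ a ∧
    Conn c k (HS s x n \ (D.N k ∪ opp j y A k)) p u) ∨
  (∀ i < j, kol i = k → ∃ p ∈ D.I i, ∃ u ∈ bd x n, sd (y ((i + 2) % j)) u ≤ a ∧
    Conn c k (HS s x n \ (D.N k ∪ opp j y A k)) p u)

/-- Marked arms. -/
def Mrk (c : V → Bool) (j : ℕ) (s : Bool) (x : V) (n : ℕ) (D : Dat) (y : ℕ → V) (a A : ℕ) : Prop :=
  MrkC c j s x n D y a A true ∧ MrkC c j s x n D y a A false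

/-- Arms marked at the standard points. -/
def Std (c : V → Bool) (j : ℕ) (s : Bool) (x : V) (n : ℕ) (D : Dat) : Prop :=
  Mrk c j s x n D (zpt x n) (n / 64) (n / 8)

/-- The next radius. -/
def nx (s : Bool) (n : ℕ) : ℕ := if s = true then 2 * n else n / 2

/-- An additional event at the other end: `Xp` increasing, `Xm` decreasing, both local and beyond
radius `r`. -/
def Extra (s : Bool) (x : V) (r : ℕ) (Xp Xm : Set (V → Bool)) : Prop :=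
  Mon true Xp ∧ Mon false Xm ∧
    (if s = true then Loc Xp (box x r) ∧ Loc Xm (box x r)
      else Loc Xp {v | r ≤ sd x v} ∧ Loc Xm {v | r ≤ sd x v})

/-- Extension of arms with standard end points costs a constant factor. Proof: DP_NOTES E1. -/
def SE1_stmt : Prop :=
  ∃ c₁ : ℝ, 0 < c₁ ∧ ∃ i₁ : ℕ, ∀ (j : ℕ) (s : Bool) (ρ : V → ℝ) (x : V) (D : Dat)
    (Xp Xm : Set (V → Bool)) (i : ℕ), j = 2 ∨ j = 4 → Profile ρ → Even (x.1 + x.2) → i₁ ≤ i →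
    D.ok s x (if s = true then 2 ^ (i - 1) else 2 ^ (i + 1)) →
    Extra s x (if s = true then 2 ^ (i - 1) else 2 ^ (i + 1)) Xp Xm →
      c₁ * Q ρ ((Xp ∩ Xm) ∩ Ev fun c => Std c j s x (2 ^ i) D)
          ((Xp ∩ Xm) ∩ Ev fun c => Std c j s x (2 ^ i) D) ≤
        Q ρ ((Xp ∩ Xm) ∩ Ev fun c => Std c j s x (nx s (2 ^ i)) D)
          ((Xp ∩ Xm) ∩ Ev fun c => Std c j s x (nx s (2 ^ i)) D)

/-! ## Routing -/

/-- A chain of cells along a discrete curve (rounding to the grid `f 0 + 2 ℓ ℤ²`; a corner is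
inserted when both coordinates change). -/
def RTA_stmt : Prop :=
  ∀ (ℓ T : ℕ) (f : ℕ → V), 1 ≤ ℓ → (∀ t < T, sd (f t) (f (t + 1)) ≤ ℓ) →
    ∃ gs : List V, Chn ℓ gs ∧ gs.head? = some (f 0) ∧ gs.length ≤ 2 * T + 1 ∧
      (∃ g, gs.getLast? = some g ∧ sd (f T) g ≤ ℓ) ∧ ∀ g ∈ gs, ∃ t ≤ T, sd (f t) g ≤ 2 * ℓ

/-- Existence of disjoint discrete curves from separated points `y l` of `bd x n`, `n = 2 ^ i`, to
the standard points of the next circle. `d` measures the mutual distance of the `y l`, `e` the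
width of the allowed neighbourhoods. The permutation `π` keeps the colours. -/
def RTB_stmt : Prop :=
  ∀ d e : ℕ, d ≤ e → ∃ h T i₁ : ℕ, e + 4 ≤ h ∧ h ≤ i₁ ∧ ∀ (j : ℕ) (s : Bool) (x : V) (i : ℕ)
    (y : ℕ → V), j = 2 ∨ j = 4 → i₁ ≤ i → (∀ l < j, y l ∈ bd x (2 ^ i)) → Ord j x (2 ^ i) y →
    (∀ l < j, ∀ l' < j, l ≠ l' → 2 ^ (i - d) ≤ sd (y l) (y l')) →
      ∃ (π : ℕ → ℕ) (f : ℕ → ℕ → V),
        ((∀ l < j, l % 2 = 0 → π l = l) ∨ (∀ l < j, l % 2 = 0 → π l = (l + 2) % j)) ∧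
        ((∀ l < j, l % 2 = 1 → π l = l) ∨ (∀ l < j, l % 2 = 1 → π l = (l + 2) % j)) ∧
        ∀ l < j, f l 0 = y l ∧ (∀ t < T, sd (f l t) (f l (t + 1)) ≤ 2 ^ (i - h)) ∧
          (∃ r : ℕ, f l T = zpt x r (π l) ∧
            (if s = true then nx s (2 ^ i) + 2 ^ (i - h) ≤ r ∧ r ≤ 4 * 2 ^ i
              else 2 ^ i / 4 ≤ r ∧ r + 2 ^ (i - h) ≤ nx s (2 ^ i))) ∧
          ∀ t ≤ T,
            (∀ v, sd (f l t) v ≤ 5 * 2 ^ (i - h) →
              (v ∈ HS s x (2 ^ i) → sd (y l) v ≤ 2 ^ (i - e)) ∧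
              (v ∈ bd x (nx s (2 ^ i)) →
                sd (zpt x (nx s (2 ^ i)) (π l)) v ≤ nx s (2 ^ i) / 64) ∧
              ∀ l' < j, l' % 2 ≠ l % 2 → nx s (2 ^ i) / 8 < sd (zpt x (nx s (2 ^ i)) (π l')) v) ∧
            ∀ l' < j, l' % 2 ≠ l % 2 → ∀ t' ≤ T, 10 * 2 ^ (i - h) < sd (f l t) (f l' t')

/-- Existence of routes: chains `gs l` with cells of size `2 ^ (i - h)` (from `RTA`, `RTB`). -/
def RT_stmt : Prop :=
  ∀ d e : ℕ, d ≤ e → ∃ h K i₁ : ℕ, e + 4 ≤ h ∧ h ≤ i₁ ∧ ∀ (j : ℕ) (s : Bool) (x : V) (i : ℕ)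
    (y : ℕ → V), j = 2 ∨ j = 4 → i₁ ≤ i → (∀ l < j, y l ∈ bd x (2 ^ i)) → Ord j x (2 ^ i) y →
    (∀ l < j, ∀ l' < j, l ≠ l' → 2 ^ (i - d) ≤ sd (y l) (y l')) →
      ∃ (π : ℕ → ℕ) (gs : ℕ → List V),
        ((∀ l < j, l % 2 = 0 → π l = l) ∨ (∀ l < j, l % 2 = 0 → π l = (l + 2) % j)) ∧
        ((∀ l < j, l % 2 = 1 → π l = l) ∨ (∀ l < j, l % 2 = 1 → π l = (l + 2) % j)) ∧
        ∀ l < j, Chn (2 ^ (i - h)) (gs l) ∧ (gs l).head? = some (y l) ∧ (gs l).length ≤ K ∧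
          -- the last cell: near the ray of the standard point, beyond the next circle
          (∃ (g : V) (r : ℕ), (gs l).getLast? = some g ∧ sd (zpt x r (π l)) g ≤ 2 ^ (i - h) ∧
            (if s = true then nx s (2 ^ i) + 2 ^ (i - h) ≤ r ∧ r ≤ 4 * 2 ^ i
              else 2 ^ i / 4 ≤ r ∧ r + 2 ^ (i - h) ≤ nx s (2 ^ i))) ∧
          -- inside the region of the arms the chain stays near `y l`
          (∀ v ∈ reg (2 ^ (i - h)) (gs l), v ∈ HS s x (2 ^ i) → sd (y l) v ≤ 2 ^ (i - e)) ∧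
          -- on the next circle it is near the standard point
          (∀ v ∈ reg (2 ^ (i - h)) (gs l), v ∈ bd x (nx s (2 ^ i)) →
            sd (zpt x (nx s (2 ^ i)) (π l)) v ≤ nx s (2 ^ i) / 64) ∧
          -- it avoids the standard points of the other colour and the chains of the other colour
          ∀ l' < j, l' % 2 ≠ l % 2 →
            (∀ v ∈ reg (2 ^ (i - h)) (gs l),
              nx s (2 ^ i) / 8 < sd (zpt x (nx s (2 ^ i)) (π l')) v) ∧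
            Disjoint (reg (2 ^ (i - h)) (gs l)) (reg (2 ^ (i - h)) (gs l'))

/-- From marked arms to standard arms (deterministic inclusion): marked arms and loops of the right
colours in the chains give standard arms at the next circle. -/
def MI_stmt : Prop :=
  ∀ (c : V → Bool) (j : ℕ) (s : Bool) (x : V) (i h e : ℕ) (D : Dat) (y : ℕ → V) (π : ℕ → ℕ)
    (gs : ℕ → List V), j = 2 ∨ j = 4 → Even (x.1 + x.2) → e + 4 ≤ h → h ≤ i → 4 ≤ e →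
    D.ok s x (if s = true then 2 ^ (i - 1) else 2 ^ (i + 1)) →
    (∀ l < j, y l ∈ bd x (2 ^ i)) →
    ((∀ l < j, l % 2 = 0 → π l = l) ∨ (∀ l < j, l % 2 = 0 → π l = (l + 2) % j)) →
    ((∀ l < j, l % 2 = 1 → π l = l) ∨ (∀ l < j, l % 2 = 1 → π l = (l + 2) % j)) →
    (∀ l < j, Chn (2 ^ (i - h)) (gs l) ∧ (gs l).head? = some (y l) ∧
      (∃ (g : V) (r : ℕ), (gs l).getLast? = some g ∧ sd (zpt x r (π l)) g ≤ 2 ^ (i - h) ∧
        (if s = true then nx s (2 ^ i) + 2 ^ (i - h) ≤ r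
          else 2 ^ i / 4 ≤ r ∧ r + 2 ^ (i - h) ≤ nx s (2 ^ i))) ∧
      (∀ v ∈ reg (2 ^ (i - h)) (gs l), v ∈ HS s x (2 ^ i) → sd (y l) v ≤ 2 ^ (i - e)) ∧
      (∀ v ∈ reg (2 ^ (i - h)) (gs l), v ∈ bd x (nx s (2 ^ i)) →
        sd (zpt x (nx s (2 ^ i)) (π l)) v ≤ nx s (2 ^ i) / 64) ∧
      ∀ l' < j, l' % 2 ≠ l % 2 → ∀ v ∈ reg (2 ^ (i - h)) (gs l),
        nx s (2 ^ i) / 8 < sd (zpt x (nx s (2 ^ i)) (π l')) v) →
    Mrk c j s x (2 ^ i) D y (2 ^ (i - h)) (2 ^ (i - e)) →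
    (∀ l < j, Full c (kol l) (2 ^ (i - h)) (gs l)) →
      Std c j s x (nx s (2 ^ i)) D

/-- Marked arms at separated points are at most `C` times as likely as standard arms at the next
circle (from RT, MI, Bgen, CH3). -/
def SE2_stmt : Prop :=
  ∀ d e : ℕ, d ≤ e → 4 ≤ e → ∃ h : ℕ, e + 4 ≤ h ∧ ∃ C : ℝ, 0 < C ∧ ∃ i₁ : ℕ, h ≤ i₁ ∧
    ∀ (j : ℕ) (s : Bool) (ρ : V → ℝ) (x : V) (D : Dat) (Xp Xm : Set (V → Bool)) (i : ℕ)
      (y : ℕ → V), j = 2 ∨ j = 4 → Profile ρ → Even (x.1 + x.2) → i₁ ≤ i →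
    D.ok s x (if s = true then 2 ^ (i - 1) else 2 ^ (i + 1)) →
    Extra s x (if s = true then 2 ^ (i - 1) else 2 ^ (i + 1)) Xp Xm →
    (∀ l < j, y l ∈ bd x (2 ^ i)) → Ord j x (2 ^ i) y →
    (∀ l < j, ∀ l' < j, l ≠ l' → 2 ^ (i - d) ≤ sd (y l) (y l')) →
      Q ρ ((Xp ∩ Xm) ∩ Ev fun c => Mrk c j s x (2 ^ i) D y (2 ^ (i - h)) (2 ^ (i - e)))
          ((Xp ∩ Xm) ∩ Ev fun c => Mrk c j s x (2 ^ i) D y (2 ^ (i - h)) (2 ^ (i - e))) ≤
        C * Q ρ ((Xp ∩ Xm) ∩ Ev fun c => Std c j s x (nx s (2 ^ i)) D)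
          ((Xp ∩ Xm) ∩ Ev fun c => Std c j s x (nx s (2 ^ i)) D)

/-! ## Separation -/

/-- Off the bad event free arms are marked at points of a net (deterministic; from D3). `T` is the
net: every point of the circle is at distance at most `a` of a point of `T`. -/
def NT_stmt : Prop :=
  ∀ (c : V → Bool) (j : ℕ) (s : Bool) (x : V) (n n' r₁ r₂ r₃ a : ℕ) (D : Dat) (T : Set V),
    j = 2 ∨ j = 4 → Even (x.1 + x.2) → 1 ≤ n' → gap s n n' r₃ → 1 ≤ a → 8 * a ≤ r₁ → 8 * r₁ ≤ r₂ →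
    16 * r₂ ≤ r₃ → r₃ ≤ n → 8 ≤ r₂ → D.ok s x (if s = true then n' - 1 else n' + 1) →
    T ⊆ bd x n → (∀ u ∈ bd x n, ∃ t ∈ T, sd t u ≤ a) →
    ¬ Bad s c x n (r₂ + 4) r₃ → ¬ Bad s c x n r₁ r₂ → Fam c j s x n D →
      ∃ y : ℕ → V, (∀ l < j, y l ∈ T) ∧ Ord j x n y ∧
        (∀ l < j, ∀ l' < j, l ≠ l' → r₂ / 2 ≤ sd (y l) (y l')) ∧
        Mrk c j s x n D y a (r₁ / 2)

/-- The separation step: free arms at `bd x (2 ^ i)` are standard arms at the next circle up to a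
constant, or an independent bad event occurs. `Y` is an event beyond radius `2 ^ (i - 1)`
(resp. `2 ^ (i + 1)`) which contains the event. -/
def SE3_stmt : Prop :=
  ∀ ε : ℝ, 0 < ε → ∃ C : ℝ, 0 < C ∧ ∃ i₁ : ℕ, ∀ (j : ℕ) (s : Bool) (ρ : V → ℝ) (x : V) (D : Dat)
    (Xp Xm Y : Set (V → Bool)) (i : ℕ), j = 2 ∨ j = 4 → Profile ρ → Even (x.1 + x.2) → i₁ ≤ i →
    D.ok s x (if s = true then 2 ^ (i - 1) else 2 ^ (i + 1)) →
    Extra s x (if s = true then 2 ^ (i - 1) else 2 ^ (i + 1)) Xp Xm →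
    (if s = true then Loc Y (box x (2 ^ (i - 1))) else Loc Y {v | 2 ^ (i + 1) ≤ sd x v}) →
    ((Xp ∩ Xm) ∩ Ev fun c => Fam c j s x (2 ^ i) D) ⊆ Y →
      Q ρ ((Xp ∩ Xm) ∩ Ev fun c => Fam c j s x (2 ^ i) D)
          ((Xp ∩ Xm) ∩ Ev fun c => Fam c j s x (2 ^ i) D) ≤
        C * Q ρ ((Xp ∩ Xm) ∩ Ev fun c => Std c j s x (nx s (2 ^ i)) D)
          ((Xp ∩ Xm) ∩ Ev fun c => Std c j s x (nx s (2 ^ i)) D) + ε * Q ρ Y Y

/-- Separation, outer side. `b₀` is a lower bound at the first scale. -/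
def SEPO_stmt : Prop :=
  ∀ b₀ : ℝ, 0 < b₀ → ∃ C : ℝ, 0 < C ∧ ∃ i₁ : ℕ, ∀ (j : ℕ) (ρ : V → ℝ) (x : V) (D : Dat) (i₀ : ℕ),
    j = 2 ∨ j = 4 → Profile ρ → Even (x.1 + x.2) → i₁ ≤ i₀ → D.ok true x (2 ^ (i₀ - 1)) →
    (∀ c i, i₀ ≤ i → Fam c j true x (2 ^ (i + 1)) D → Fam c j true x (2 ^ i) D) →
    b₀ ≤ Q ρ (Ev fun c => Std c j true x (2 ^ (i₀ + 1)) D)
      (Ev fun c => Std c j true x (2 ^ (i₀ + 1)) D) →
      ∀ i, i₀ ≤ i → Q ρ (Ev fun c => Fam c j true x (2 ^ i) D)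
          (Ev fun c => Fam c j true x (2 ^ i) D) ≤
        C * Q ρ (Ev fun c => Std c j true x (2 ^ (i + 1)) D)
          (Ev fun c => Std c j true x (2 ^ (i + 1)) D)

/-- Separation, inner side (scales go down from `i₀`). -/
def SEPI_stmt : Prop :=
  ∀ b₀ : ℝ, 0 < b₀ → ∃ C : ℝ, 0 < C ∧ ∃ i₁ : ℕ, ∀ (j : ℕ) (ρ : V → ℝ) (x : V) (D : Dat) (i₀ : ℕ),
    j = 2 ∨ j = 4 → Profile ρ → Even (x.1 + x.2) → i₁ + 1 ≤ i₀ → D.ok false x (2 ^ (i₀ + 1)) →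
    (∀ c i, i₁ ≤ i → i < i₀ → Fam c j false x (2 ^ i) D → Fam c j false x (2 ^ (i + 1)) D) →
    b₀ ≤ Q ρ (Ev fun c => Std c j false x (2 ^ (i₀ - 1)) D)
      (Ev fun c => Std c j false x (2 ^ (i₀ - 1)) D) →
      ∀ i, i₁ + 1 ≤ i → i ≤ i₀ → Q ρ (Ev fun c => Fam c j false x (2 ^ i) D)
          (Ev fun c => Fam c j false x (2 ^ i) D) ≤
        C * Q ρ (Ev fun c => Std c j false x (2 ^ (i - 1)) D)
          (Ev fun c => Std c j false x (2 ^ (i - 1)) D)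

/-! ## Free arms and the events `two`, `four` -/

/-- The free events. -/
def ar (j : ℕ) (c : V → Bool) (x : V) (m n : ℕ) : Prop := if j = 4 then four c x m n else two c x m n

def FA_stmt : Prop :=
  ∀ (c : V → Bool) (j : ℕ) (x : V) (m n : ℕ), j = 2 ∨ j = 4 → Even (x.1 + x.2) → 1 ≤ m → m < n →
    (Fam c j true x n (Dfree true x m) ↔ ar j c x m n) ∧
      (Fam c j false x m (Dfree false x n) ↔ ar j c x m n)

/-- Standard arms are free arms. -/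
def SF_stmt : Prop :=
  ∀ (c : V → Bool) (j : ℕ) (s : Bool) (x : V) (n : ℕ) (D : Dat), j = 2 ∨ j = 4 → 64 ≤ n →
    Std c j s x n D → Fam c j s x n D

/-- Monotonicity of the free events. -/
def AM_stmt : Prop :=
  ∀ (c : V → Bool) (j : ℕ) (x : V) (m m' n' n : ℕ), j = 2 ∨ j = 4 → m ≤ m' → m' ≤ n' → n' ≤ n →
    ar j c x m n → ar j c x m' n'

/-- Marked arms restrict. -/
def MM_stmt : Prop :=
  ∀ (c : V → Bool) (j : ℕ) (x : V) (m n' n : ℕ), j = 2 ∨ j = 4 → Even (x.1 + x.2) → 64 ≤ m →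
    2 * m ≤ n' → n' ≤ n → Fam c j true x n (Dmark j x m) → Fam c j true x n' (Dmark j x m)

/-- Marked arms are arms. -/
def MF_stmt : Prop :=
  ∀ (c : V → Bool) (j : ℕ) (x : V) (m n : ℕ), j = 2 ∨ j = 4 → Even (x.1 + x.2) → 64 ≤ m →
    2 * m ≤ n → (Fam c j true x n (Dmark j x m) → ar j c x m n) ∧
      (Std c j false x m (Dfree false x n) → Fam c j true x n (Dmark j x m))

/-- Lower bounds at bounded ratio (chains of loops on the four rays). -/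
def LB_stmt : Prop :=
  ∃ b₀ : ℝ, 0 < b₀ ∧ ∃ i₁ : ℕ, ∀ (j : ℕ) (ρ : V → ℝ) (x : V) (i : ℕ), j = 2 ∨ j = 4 → Profile ρ →
    Even (x.1 + x.2) → i₁ ≤ i →
      b₀ ≤ Q ρ (Ev fun c => Std c j true x (2 ^ (i + 2)) (Dfree true x (2 ^ i)))
        (Ev fun c => Std c j true x (2 ^ (i + 2)) (Dfree true x (2 ^ i))) ∧
      b₀ ≤ Q ρ (Ev fun c => Std c j true x (2 ^ (i + 2)) (Dmark j x (2 ^ i)))
        (Ev fun c => Std c j true x (2 ^ (i + 2)) (Dmark j x (2 ^ i))) ∧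
      b₀ ≤ Q ρ (Ev fun c => Std c j false x (2 ^ i) (Dfree false x (2 ^ (i + 2))))
        (Ev fun c => Std c j false x (2 ^ i) (Dfree false x (2 ^ (i + 2))))

/-- Gluing (deterministic): inner arms with standard outer end points at `2 ^ (i + 1)`, outer arms
with standard inner end points at `2 ^ (i + 2)`, and loops in the four chains of cells of size
`2 ^ (i - 9)` on the rays between them. -/
def GL_stmt : Prop :=
  ∀ (c : V → Bool) (j : ℕ) (x : V) (m i n : ℕ) (gs : ℕ → List V), j = 2 ∨ j = 4 →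
    Even (x.1 + x.2) → 1 ≤ m → 2 * m ≤ 2 ^ (i + 1) → 2 ^ (i + 3) ≤ n → 10 ≤ i →
    Std c j true x (2 ^ (i + 1)) (Dfree true x m) → Std c j false x (2 ^ (i + 2)) (Dfree false x n) →
    (∀ l < j, (∃ S, Loop c (kol l) (zpt x (2 ^ (i + 1)) l) (2 ^ (i - 4)) S) ∧
      (∃ S, Loop c (kol l) (zpt x (2 ^ (i + 2)) l) (2 ^ (i - 3)) S) ∧
      gs l = (List.range (2 ^ 9 + 1)).map (fun t => zpt x (2 ^ (i + 1) + 2 * t * 2 ^ (i - 9)) l) ∧
      Full c (kol l) (2 ^ (i - 9)) (gs l)) →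
        ar j c x m n

/-- Quasi-multiplicativity. -/
def QM_stmt : Prop :=
  ∃ c₂ : ℝ, 0 < c₂ ∧ ∃ i₁ : ℕ, ∀ (j : ℕ) (ρ : V → ℝ) (x : V) (a b d : ℕ), j = 2 ∨ j = 4 →
    Profile ρ → Even (x.1 + x.2) → i₁ ≤ a → a < b → b < d →
      c₂ * (Q ρ (Ev fun c => ar j c x (2 ^ a) (2 ^ b)) (Ev fun c => ar j c x (2 ^ a) (2 ^ b)) *
          Q ρ (Ev fun c => ar j c x (2 ^ b) (2 ^ d)) (Ev fun c => ar j c x (2 ^ b) (2 ^ d))) ≤
        Q ρ (Ev fun c => ar j c x (2 ^ a) (2 ^ d)) (Ev fun c => ar j c x (2 ^ a) (2 ^ d))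

/-- Extension outwards and inwards, lower bound at ratio two. -/
def EXT_stmt : Prop :=
  ∃ c₂ : ℝ, 0 < c₂ ∧ ∃ i₁ : ℕ, ∀ (j : ℕ) (ρ : V → ℝ) (x : V) (a b : ℕ), j = 2 ∨ j = 4 →
    Profile ρ → Even (x.1 + x.2) → i₁ ≤ a → a < b →
      c₂ * Q ρ (Ev fun c => ar j c x (2 ^ a) (2 ^ b)) (Ev fun c => ar j c x (2 ^ a) (2 ^ b)) ≤
        Q ρ (Ev fun c => ar j c x (2 ^ a) (2 ^ (b + 1))) (Ev fun c => ar j c x (2 ^ a) (2 ^ (b + 1))) ∧
      (i₁ < a → c₂ * Q ρ (Ev fun c => ar j c x (2 ^ a) (2 ^ b))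
          (Ev fun c => ar j c x (2 ^ a) (2 ^ b)) ≤
        Q ρ (Ev fun c => ar j c x (2 ^ (a - 1)) (2 ^ b))
          (Ev fun c => ar j c x (2 ^ (a - 1)) (2 ^ b))) ∧
      c₂ ≤ Q ρ (Ev fun c => ar j c x (2 ^ a) (2 ^ (a + 1)))
          (Ev fun c => ar j c x (2 ^ a) (2 ^ (a + 1)))

/-- Submultiplicativity (exact independence, common circle). -/
def SUB_stmt : Prop :=
  ∀ (j : ℕ) (ρ : V → ℝ) (x : V) (m n n' r : ℕ), j = 2 ∨ j = 4 → m ≤ n → n < n' → n' ≤ r →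
    Q ρ (Ev fun c => ar j c x m r) (Ev fun c => ar j c x m r) ≤
      Q ρ (Ev fun c => ar j c x m n) (Ev fun c => ar j c x m n) *
        Q ρ (Ev fun c => ar j c x n' r) (Ev fun c => ar j c x n' r)

/-- Arms standard at both ends (four arms and two arms): from SEPI, then SEPO with marked data. -/
def BOTH_stmt : Prop :=
  ∃ C : ℝ, 0 < C ∧ ∃ i₁ : ℕ, ∀ (j : ℕ) (ρ : V → ℝ) (x : V) (a b : ℕ), j = 2 ∨ j = 4 →
    Profile ρ → Even (x.1 + x.2) → i₁ ≤ a → a + 4 ≤ b →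
      Q ρ (Ev fun c => ar j c x (2 ^ a) (2 ^ b)) (Ev fun c => ar j c x (2 ^ a) (2 ^ b)) ≤
        C * Q ρ (Ev fun c => Std c j true x (2 ^ (b + 1)) (Dmark j x (2 ^ (a - 1))))
          (Ev fun c => Std c j true x (2 ^ (b + 1)) (Dmark j x (2 ^ (a - 1))))

end DP
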