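import Mathlib

/-!
# Critical dynamical percolation on the square lattice: common definitions (project dp)

The sites of the fine grid `ℤ × ℤ` represent the vertices of the primal lattice (both coordinates
even, always black), the vertices of the dual lattice (both coordinates odd, always white) and the
edges (coordinates of different parity, coloured by a fair coin). Adjacency is the usual adjacency
of `ℤ × ℤ` together with the diagonals joining a primal and a dual vertex: a triangulation of the
plane. Black connections are the connections by open edges, white connections the connections by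
open dual edges. Colours: `true` is black, `false` is white.
-/

namespace DP

open MeasureTheory

/-- Sites of the fine grid. -/
abbrev V : Type := ℤ × ℤ

/-- Supremum distance. -/
def sd (u v : V) : ℕ := max (u.1 - v.1).natAbs (u.2 - v.2).natAbs

/-- Adjacency in the triangulation. -/
def Adj (u v : V) : Prop := sd u v = 1 ∧ (u.1 = v.1 ∨ u.2 = v.2 ∨ Even (u.1 + u.2))

/-- The colouring given by the coins `b`. -/
def col (b : V → Bool) (v : V) : Bool :=
  if v.1 % 2 = 0 ∧ v.2 % 2 = 0 then true else if v.1 % 2 = 1 ∧ v.2 % 2 = 1 then false else b v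

/-- `u` and `v` are connected by a path in `W` (end points included). -/
def Con (W : Set V) (u v : V) : Prop :=
  u ∈ W ∧ Relation.ReflTransGen (fun a b => Adj a b ∧ b ∈ W) u v

/-- `u` and `v` are connected by a path of colour `k` in the region `R`. -/
def Conn (c : V → Bool) (k : Bool) (R : Set V) (u v : V) : Prop := Con {w | w ∈ R ∧ c w = k} u v

/-- A list of sites which is a path in `W` from `u` to `v`. -/
def IsPath (W : Set V) (l : List V) (u v : V) : Prop :=
  l.head? = some u ∧ l.getLast? = some v ∧ l.IsChain Adj ∧ ∀ w ∈ l, w ∈ W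

def box (x : V) (n : ℕ) : Set V := {v | sd x v ≤ n}
def bd (x : V) (n : ℕ) : Set V := {v | sd x v = n}
def ann (x : V) (m n : ℕ) : Set V := {v | m ≤ sd x v ∧ sd x v ≤ n}
def rect (a b c d : ℤ) : Set V := {v | a ≤ v.1 ∧ v.1 ≤ b ∧ c ≤ v.2 ∧ v.2 ≤ d}

/-- Black (`k = true`) or white arm across an annulus. -/
def arm (c : V → Bool) (k : Bool) (x : V) (m n : ℕ) : Prop :=
  ∃ u ∈ bd x m, ∃ v ∈ bd x n, Conn c k (ann x m n) u v

/-- A path of colour `k` from distance at most `m` to distance at least `n` (anywhere). -/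
def reach (c : V → Bool) (k : Bool) (x : V) (m n : ℕ) : Prop :=
  ∃ u v, sd x u ≤ m ∧ n ≤ sd x v ∧ Conn c k Set.univ u v

/-- Two arms of different colours. -/
def two (c : V → Bool) (x : V) (m n : ℕ) : Prop := arm c true x m n ∧ arm c false x m n

/-- Two different crossing clusters of colour `k` in the annulus. -/
def twoCl (c : V → Bool) (k : Bool) (x : V) (m n : ℕ) : Prop :=
  ∃ u ∈ bd x m, ∃ v ∈ bd x m, (∃ u' ∈ bd x n, Conn c k (ann x m n) u u') ∧
    (∃ v' ∈ bd x n, Conn c k (ann x m n) v v') ∧ ¬ Conn c k (ann x m n) u v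

/-- Four arms of alternating colours. -/
def four (c : V → Bool) (x : V) (m n : ℕ) : Prop := twoCl c true x m n

/-- Left to right crossing of a rectangle. -/
def hcross (c : V → Bool) (k : Bool) (a b d e : ℤ) : Prop :=
  ∃ u v : V, u.1 = a ∧ v.1 = b ∧ Conn c k (rect a b d e) u v

/-- Bottom to top crossing of a rectangle. -/
def vcross (c : V → Bool) (k : Bool) (a b d e : ℤ) : Prop :=
  ∃ u v : V, u.2 = d ∧ v.2 = e ∧ Conn c k (rect a b d e) u v

/-- Counterclockwise position (in `(0, 8 n]`) on the square circle `bd x n`. -/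
def pos (x : V) (n : ℕ) (u : V) : ℤ :=
  if u.1 - x.1 = n ∧ -(n : ℤ) < u.2 - x.2 then n + (u.2 - x.2)
  else if u.2 - x.2 = n then 3 * n - (u.1 - x.1)
  else if u.1 - x.1 = -(n : ℤ) then 5 * n - (u.2 - x.2)
  else 7 * n + (u.1 - x.1)

/-- `w` lies on the counterclockwise arc from `u` to `v` (end points included) of `bd x n`. -/
def onArc (x : V) (n : ℕ) (u v w : V) : Prop :=
  u ∈ bd x n ∧ v ∈ bd x n ∧ w ∈ bd x n ∧
    (if pos x n u ≤ pos x n v then pos x n u ≤ pos x n w ∧ pos x n w ≤ pos x n v
      else pos x n u ≤ pos x n w ∨ pos x n w ≤ pos x n v)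

/-- `v` is the counterclockwise neighbour of `u` on `bd x n`. -/
def nxt (x : V) (n : ℕ) (u v : V) : Prop :=
  u ∈ bd x n ∧ v ∈ bd x n ∧ (pos x n v = pos x n u + 1 ∨ (pos x n u = 8 * n ∧ pos x n v = 1))

/-- The four different points of `bd x n` alternate: `u₁, u₃` separate `u₂, u₄`. -/
def alt (x : V) (n : ℕ) (u₁ u₂ u₃ u₄ : V) : Prop :=
  (u₁ ∈ bd x n ∧ u₂ ∈ bd x n ∧ u₃ ∈ bd x n ∧ u₄ ∈ bd x n) ∧ [u₁, u₂, u₃, u₄].Nodup ∧
    ((onArc x n u₁ u₃ u₂ ∧ onArc x n u₃ u₁ u₄) ∨ (onArc x n u₁ u₃ u₄ ∧ onArc x n u₃ u₁ u₂))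

/-- Number of steps of a list which cross the vertical half line above `v` (between the column of
`v` and the next one). -/
def upCross (v : V) (l : List V) : ℕ :=
  ((l.zip l.tail).filter fun p =>
    (decide (p.1.1 = v.1 ∧ p.2.1 = v.1 + 1 ∧ v.2 < p.1.2) ||
      decide (p.2.1 = v.1 ∧ p.1.1 = v.1 + 1 ∧ v.2 < p.2.2))).length

/-- `S` is the set of sites of a closed path of colour `k` in `{v | ℓ < sd g v < 3 ℓ}` which goes
around `g`. -/
def Loop (c : V → Bool) (k : Bool) (g : V) (ℓ : ℕ) (S : Set V) : Prop :=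
  ∃ (l : List V) (u : V), IsPath {v | ℓ < sd g v ∧ sd g v < 3 * ℓ ∧ c v = k} l u u ∧
    Odd (upCross g l) ∧ S = {v | v ∈ l}

/-! ## Probability -/

/-- Law of a pair of coins: with probability `1 - r` the second coin equals the first one,
with probability `r` it is a fresh coin. `r` is cut to `[0, 1]`. -/
noncomputable def wt (r : ℝ) (a : Bool × Bool) : ℝ :=
  (1 - max 0 (min 1 r)) * (if a.1 = a.2 then 1 / 2 else 0) + max 0 (min 1 r) / 4

theorem wt_nonneg (r : ℝ) (a : Bool × Bool) : 0 ≤ wt r a := by
  have h0 : 0 ≤ max 0 (min 1 r) := le_max_left _ _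
  have h1 : max 0 (min 1 r) ≤ 1 := max_le zero_le_one (min_le_left _ _)
  unfold wt
  split_ifs <;> nlinarith

/-- The law of a pair of coins as a measure. -/
noncomputable def pairLaw (r : ℝ) : Measure (Bool × Bool) :=
  ∑ a : Bool × Bool, ENNReal.ofReal (wt r a) • Measure.dirac a

theorem wt_sum (r : ℝ) : ∑ a : Bool × Bool, wt r a = 1 := by
  simp [Fintype.sum_prod_type, wt]
  ring

instance (r : ℝ) : IsProbabilityMeasure (pairLaw r) := by
  constructor
  unfold pairLaw
  simp only [Measure.coe_finset_sum, Measure.coe_smul, Finset.sum_apply, Pi.smul_apply,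
    measure_univ, smul_eq_mul, mul_one]
  rw [← ENNReal.ofReal_sum_of_nonneg (fun a _ => wt_nonneg r a), wt_sum, ENNReal.ofReal_one]

/-- Fair coins at all sites. -/
noncomputable def P1 : Measure (V → Bool) :=
  Measure.infinitePi fun _ => (PMF.uniformOfFintype Bool).toMeasure

/-- Pairs of configurations with noise profile `ρ`. -/
noncomputable def PP (ρ : V → ℝ) : Measure (V → Bool × Bool) :=
  Measure.infinitePi fun v => pairLaw (ρ v)

/-- Probability of a set of coin configurations. -/
noncomputable def Pr (F : Set (V → Bool)) : ℝ := P1.real F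

/-- Probability that the first configuration is in `F` and the second one in `G`. -/
noncomputable def Q (ρ : V → ℝ) (F G : Set (V → Bool)) : ℝ :=
  (PP ρ).real {w | (fun v => (w v).1) ∈ F ∧ (fun v => (w v).2) ∈ G}

/-- `F` depends only on the coins in `A`. -/
def Dep (F : Set (V → Bool)) (A : Set V) : Prop :=
  ∀ b b' : V → Bool, (∀ v ∈ A, b v = b' v) → (b ∈ F ↔ b' ∈ F)

/-- `F` depends only on finitely many coins, all in `A`. -/
def Loc (F : Set (V → Bool)) (A : Set V) : Prop := ∃ Λ : Finset V, (Λ : Set V) ⊆ A ∧ Dep F Λ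

/-- Increasing (`k = true`) or decreasing (`k = false`) sets of configurations. -/
def Mon (k : Bool) (F : Set (V → Bool)) : Prop :=
  ∀ b b' : V → Bool, (∀ v, b v = k → b' v = k) → b ∈ F → b' ∈ F

/-- Changing the coins in `B` can put the configuration into `F` and out of `F`. -/
def Piv (B : Set V) (F : Set (V → Bool)) : Set (V → Bool) :=
  {b | ∃ b' b'' : V → Bool, (∀ v, v ∉ B → b' v = b v ∧ b'' v = b v) ∧ b' ∈ F ∧ b'' ∉ F}

/-- Events of the colouring as sets of coin configurations. -/
def Ev (p : (V → Bool) → Prop) : Set (V → Bool) := {b | p (col b)}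

end DP
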